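import Mathlib
import Pool.Agent.N782.GN.StmT
import Pool.Agent.Run7.h757.BP.Stm

/-!
# Project GP (helper757): primes `n² + l²` for a positive proportion of the `l ≤ L`, `N^(1/2+ε) ≤ L ≤ N^(1-ε)`

Target: MP_484c84_nt. The starting library `N782/GN` proves `∑_{l ≤ L} |∑_{m ≤ M} Λ(l² + m²) - M 𝔖(l)| ≪ L M / (log M)^A` for
`L ≥ M^(2/3 + ε)`. Here the sum over `l` is outside the absolute value, `L` may be as small as `M^(1/2 + ε)`, and an upper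
bound sieve gives the lower bound `(1 - η)` times the expected number for a positive proportion of the `l`.
All statements of `N782/GN` used below are theorems: `Pool.Agent.N782.GN.c_mb1`, `c_lsb`, `c_ft`, `c_mub`, `c_dvb`, `c_vau`, `c_ti`,
`c_til`, `c_mt1`, `c_ssl`, `c_lk` (`N782/GN/All1.lean`, `All2.lean`), `S_DIV` and `S_MT2` see `All1.lean`. `ℓ = log M`.
-/

set_option autoImplicit false

namespace Run7.h757.GP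

open Finset Filter Topology
open Pool.Agent.N782.GN

/-- **STR**: divisors of the Gaussian integers in a vertical strip. Proof. `dv z ≤ 2 #{a ∣ z : N(a) ≤ |z|}` for `z ≠ 0`
(`a ↔ z / a`), `|z| ≤ 3 M`. So the sum is at most twice the sum over `a ∈ bl (3M)` of the number of the pairs `(l, m)` with `a ∣ l + i m`
(`(0, 0)` included). Let `g = ct a`, `a = g a'`, `n' = N(a')`: `a ∣ l + i m` iff `g ∣ l`, `g ∣ m` and `m / g ≡ ν l / g (mod n')`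
(first part of `S_RLS`). There are at most `(x2 - x1) / g + 1` numbers `l`, and for each at most `4M / (g n') + 1` numbers `m`. Sum over
the primitive `a'` of norm at most `3 M / g²` (`∑ 1 / n' ≤ C log M`, `∑ 1 ≤ C M / g²`) and then over `g ≤ √(3M)`. -/
def S_STR : Prop := ∃ C : ℝ, 0 < C ∧ ∀ (M : ℝ) (x1 x2 : ℤ), 3 ≤ M → x1 ≤ x2 → |(x1 : ℝ)| ≤ 2 * M → |(x2 : ℝ)| ≤ 2 * M →
  ∑ l ∈ Ioc x1 x2, ∑ m ∈ Icc ⌈-(2 * M)⌉ ⌊2 * M⌋, (dv (⟨l, m⟩ : ZI) : ℝ) ≤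
    C * (((x2 : ℝ) - x1) + 1) * M * (Real.log M) ^ 2

/-- the weight `1` on `[1, L]` -/
noncomputable def l1 (L : ℝ) (l : ℤ) : ℝ := if 1 ≤ l ∧ (l : ℝ) ≤ L then 1 else 0

/-- **GII**: the bilinear sums for the weight `1` (from STR, DIV, MB1, LSB, FT, MUB; compare `S_II`). Proof. We may assume
`ε ≤ 1/10` and `M` large. Let `A1 = A2 = A + 5`, `η = ℓ^(-A1)`, `n = ⌈7 (M / L) ℓ^(A1)⌉`, `δ = 2π / n` (so `δ ≤ (L / M) ℓ^(-A1) ≤ 8 δ`),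
`𝓡 = {z : 1 ≤ Re z ≤ L, |Im z| ≤ M}`. `0 ≤ aW W v ≤ 4 log N(v) ≤ 12 ℓ` and `aW W v = 0` unless `N(v) > W` (`S_MUB`).

CELLS. Annuli `Y (1+η)^i < N(b) ≤ B_i := Y (1+η)^(i+1)` and `W (1+η)^j < N(v) ≤ V_j := W (1+η)^(j+1)`, `i, j ≤ C ℓ^(A1+1)`; sectors
`x₀ + sδ ≤ arg < x₀ + (s+1)δ` modulo `2π`, `s < n` (`sc δ (x₀ + sδ)`; every `z ≠ 0` is in exactly one), with an offset
`x₀ ∈ [0, δ)` chosen below. `μ(i,s)` and `a(j,t)` are the sums of `mu` and of `aW W` over a cell. The products `b v` of elements of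
the cells `(i,s)` and `(j,t)` lie in the polar cell `P(i+j, s+t) = {R² < |z|² ≤ (1+η)² R², arg z ∈ 2x₀ + [uδ, (u+2)δ)}`, `u = s+t`,
`R² = Y W (1+η)^(i+j)`. The pair is inside if `P ⊂ 𝓡`, outside if `P ∩ 𝓡 = ∅`, otherwise a boundary pair.

BOUNDARY. If `z, z'` are in the same polar cell and only one of them is in `𝓡`, then `z' = ρ e^(iθ) z`, `|ρ - 1| ≤ 3η`, `|θ| ≤ 2δ`, so
`|Re z' - Re z| ≤ Δ1 = 10 L ℓ^(-A1)` (as `M δ ≤ L ℓ^(-A1)`), `|Im z' - Im z| ≤ Δ2 = 10 M ℓ^(-A1)`, and so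
`|Re z| ≤ 1 + Δ1` or `|Re z - L| ≤ Δ1` (with `|Im z| ≤ 2M`) or `M - Δ2 ≤ |Im z| ≤ M + Δ2` (with `|Re z| ≤ 2L`). The boundary pairs contribute at
most `12 ℓ ∑ dv(z)` over these three strips: vertical strips by STR, `≤ C ℓ³ (Δ1 + 1) M`; horizontal strips by DIV (for
`1 ≤ Re z ≤ 2L`, by symmetry for `Re z < 0`, STR for `Re z = 0`), `≤ C ℓ² (L Δ2 + M √M)`; total `≤ C L M ℓ^(3 - A1)` as
`L ≥ M^(1/2+ε)`.

SMALL `R`. The inside pairs with `R ≤ M ℓ^(-A2)` contribute at most `12 ℓ ∑ dv(z)` over `z ∈ 𝓡`, `|z| ≤ 2 M ℓ^(-A2)`, so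
`≤ C ℓ² (L M ℓ^(-A2) + M √M)` by DIV.

MAIN PART. `R > M ℓ^(-A2)`. If `P ⊂ 𝓡` then `|cos (arg z)| ≤ L / R ≤ (L/M) ℓ^(A2)` on `P`; the set of these angles has measure at most
`2π (L/M) ℓ^(A2)`, so for given `i, j, s` there are at most `G = C ℓ^(A1+A2)` numbers `t` (the arcs `2x₀ + [uδ, (u+1)δ)` are disjoint),
and the same for given `i, j, t`. By Cauchy-Schwarz the inside pairs for `i, j` contribute at most
`G (∑_s μ(i,s)²)^(1/2) (∑_t a(j,t)²)^(1/2)`.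
 * `∑_t a(j,t)² ≤ (1/δ) ∫_0^{2π} (∑_{v in the annulus} aW(v) sc(2δ, x, v))² dx` (for `x ∈ x₀ + [(t-1)δ, tδ)` the sector `[x, x+2δ)`
   contains the sector `t`; `aW ≥ 0`), and by FT (with `c = aW / (12 ℓ)` on the annulus, `|c| ≤ 1 ≤ dv²`, `K = n`) and LSB this is at most
   `C ℓ^D (1/δ) (δ² (n + V_j) V_j + V_j / n + V_j² / n²) ≤ C ℓ^D δ V_j²`, because `δ V_j ≥ 1` by `W ≥ (M/L) M^(3ε)`.
 * `∑_i B_i^(-2) ∑_s μ(i,s)²` is, on average over the offset `x₀ ∈ [0, δ)`, equal to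
   `(1/δ) ∑_i B_i^(-2) ∫_0^{2π} (∑_{b in the annulus i} mu(b) sc(δ, x, b))² dx ≤ C ℓ^(A1+1) δ ℓ^(-A')` by MB1 (`q = 1`, `ε/4` for `ε`,
   `V = Y2 = B_i`; `B_i^(-1/2+ε/4) ≤ δ` because `B_i ≥ Y ≥ (M/L)² M^(3ε)` and `B_i ≤ 4 M²`, where one may restrict to
   `i` with `B_i ≤ 4M²`). Fix `x₀` with at most this value.
So the pair `i, j` contributes at most `C ℓ^{C(A)} ℓ^(-A'/2) δ B_i V_j ≤ C ℓ^{C(A)} ℓ^(-A'/2) L M` (`B_i V_j ≤ 4 R² ≤ 40 M²` for inside pairs),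
and there are at most `C ℓ^(2 A1 + 2)` pairs. Choose `A'` large. -/
def S_GII : Prop := ∀ (ε : ℝ) (A : ℕ), 0 < ε → ∃ C : ℝ, 0 < C ∧ ∀ (M L Y W : ℝ), 3 ≤ M →
  M ^ (1 / 2 + ε) ≤ L → L ≤ M ^ (1 - ε) → (M / L) ^ 2 * M ^ (3 * ε) ≤ Y → M / L * M ^ (3 * ε) ≤ W →
  |∑ b ∈ (bl (2 * M ^ 2)).filter (fun b => Y < nz b), ∑ v ∈ bl (2 * M ^ 2), mu b * aW W v * Fz (l1 L) M (b * v)| ≤
    C * L * M / (Real.log M) ^ A

/-- **GFM**: the first moment (from GII and `S_MUB, S_DVB, S_VAU, S_TI, S_TIL, S_MT1, S_MT2, S_LK`). Proof: `vaughan_l` of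
`N782/GN/MainB.lean` for `lam = l1 L` with `Y = (M/L)² M^(3ε₁)`, `W = (M/L) M^(3ε₁)`, `ε₁ = ε / 8`, so that
`Y W = (M/L)³ M^(6ε₁) ≤ L M^(1-ε₁)` because `M^(2+4ε) ≤ L⁴`. The errors `V0, V1, V2` are estimated by `V0_le, V1_le, V2_le, er3_le` and
`S_TI, S_TIL` (with `ε₁`), `V3` by GII, and the main term `∑_l (Em l M Y W - 2 M SS l)` by `em_eq` (`MainD.lean`), `S_MT1`, `S_MT2` (`Y, W ≥ M^(3ε₁)`,
so their logarithms are `≥ c ℓ`). Then `two_sided`, `S_LK` and the term `m = 0` as in `main_large`. (Adapt `MainC.lean`, `MainD.lean`;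
no absolute values and no signs are needed.) -/
def S_GFM : Prop := ∀ (ε : ℝ) (A : ℕ), 0 < ε → ∃ C : ℝ, 0 < C ∧ ∀ (M L : ℝ), 3 ≤ M →
  M ^ (1 / 2 + ε) ≤ L → L ≤ M ^ (1 - ε) →
  |∑ l ∈ Icc 1 ⌊L⌋, (∑ m ∈ Icc 1 ⌊M⌋, ArithmeticFunction.vonMangoldt (l ^ 2 + m ^ 2).natAbs - M * SS l)| ≤
    C * L * M / (Real.log M) ^ A

/-- the product of `1 - (-a | w) / (w - 1)` over the odd primes `w ≤ X` -/
noncomputable def hprod (a : ℤ) (X : ℕ) : ℝ :=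
  ∏ w ∈ (range (X + 1)).filter (fun w => Nat.Prime w ∧ w ≠ 2), (1 - (jacobiSym (-a) w : ℝ) / ((w : ℝ) - 1))

/-- `n² + l²` is prime for at least `1 - η` times the expected number of the `n ≤ N` -/
def Good (η : ℝ) (N l : ℕ) : Prop :=
  ∃ h : ℝ, 0 < h ∧ Tendsto (fun X : ℕ => hprod ((l : ℤ) ^ 2) X) atTop (𝓝 h) ∧
    (1 - η) * (1 / 2 * h * ∫ t in (2 : ℝ)..(N : ℝ), 1 / Real.log t) ≤ Run7.h757.BP.P ((l : ℤ) ^ 2) N

open Classical in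
/-- **GPOS** (the hand-in; from GFM, `S_SSL` and `Run7.h136.BP.up : S_UP`). Proof. `hprod (l²) z = pp l z`
(`jacobiSym (-l²) p = χ₄ p` if `p ∤ l`, else `0`), so `h = SS l`. Let `ℓ = log N`, `M = N`. It is enough to prove the claim for
`η ≤ 1`.
(a) `P(l²) N ≥ (1 / log (2 N²)) (∑_{m ≤ N} Λ(l² + m²) - pp_l)`, where `pp_l` is the part of the proper prime powers; `∑_l pp_l ≤ C N^(1+ε/4)`
(at most `C N` proper powers `≤ 2N²`, each with at most `C N^(ε/8)` representations, divisor bound). So by GFM (`A = 2`)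
`∑_{l ≤ L} P(l²) N ≥ (1 - o(1)) (N / (2ℓ)) ∑ SS l - o(L N / ℓ)`.
(b) `S_UP` with `a = l²`: `P(l²) N ≤ C N Vc 1 0 (l²) z + C N^(3/4)`, `z ≥ N^κ`, and `Vc 1 0 (l²) z = V1 z · pp l z`,
`V1 z ≤ 1 / log z` (`Pool.Agent.N792`), so `P(l²) N ≤ C' (N / ℓ) G(l) + C N^(3/4)` with `G(l) = ∏_{p ∣ l, p ≥ 3} (1 + 1/(p-2))`, because
`pp l z = pp 1 z · ∏_{p ∣ l, 3 ≤ p ≤ z} (1 - χ₄(p)/(p-1))^(-1)` and `pp 1 z` is bounded (it converges).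
(c) `∑_{l ≤ L} G(l)² ≤ C L` (`G(l)² ≤ C ∏_{p ∣ l} (1 + p^(-1/2)) ≤ C ∑_{d ∣ l} d^(-1/2)`), and `SS l ≥ c / G(l)`, hence
`∑_{l ≤ L} SS l ≥ c L² / ∑ G(l) ≥ c₀ L`.
(d) The `l` which are not good have `P(l²) N < (1 - η) (1/2) SS l ∫_2^N dt/log t ≤ (1 - η/2) (N / (2ℓ)) SS l`. Hence
`(η/2 - o(1)) (N / (2ℓ)) ∑ SS l ≤ ∑_{good} P(l²) N + o(L N / ℓ) ≤ C' (N/ℓ) (#good)^(1/2) (∑ G²)^(1/2) + o(L N / ℓ)`, so
`#good ≥ c(η) L`. -/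
def S_GPOS : Prop := ∀ η : ℝ, 0 < η → ∃ c : ℝ, 0 < c ∧ ∀ ε : ℝ, 0 < ε → ∃ N₀ : ℕ, ∀ N : ℕ, N₀ ≤ N → ∀ L : ℕ,
  (N : ℝ) ^ (1 / 2 + ε) ≤ L → (L : ℝ) ≤ (N : ℝ) ^ (1 - ε) →
    c * L ≤ #((Icc 1 L).filter (fun l : ℕ => Good η N l))

end Run7.h757.GP
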