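import Mathlib
import Pool.Agent.Run7.h757.GP.Stm
import Pool.Agent.N277.GN.IIe
import Pool.Agent.N546.GN.FT

/-!
# Project GP (helper757): the bilinear sums for the weight `1`.  Geometry
-/

set_option autoImplicit false

namespace Run7.h757.GP

open Finset Filter Topology
open Pool.Agent.N782.GN

open Classical in
/-- the indicator of `1 ≤ Re w ≤ L`, `|Im w| ≤ M`, `|w| > r₀` -/
noncomputable def FC (L M r₀ : ℝ) (w : ℂ) : ℝ :=
  if 1 ≤ w.re ∧ w.re ≤ L ∧ |w.im| ≤ M ∧ r₀ < ‖w‖ then 1 else 0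

theorem FC_nonneg (L M r₀ : ℝ) (w : ℂ) : 0 ≤ FC L M r₀ w := by
  unfold FC
  split_ifs <;> norm_num

theorem FC_le (L M r₀ : ℝ) (w : ℂ) : FC L M r₀ w ≤ 1 := by
  unfold FC
  split_ifs <;> norm_num

theorem FC_meas (L M r₀ : ℝ) : Measurable (FC L M r₀) := by
  unfold FC
  refine Measurable.ite ?_ measurable_const measurable_const
  have h1 : MeasurableSet {w : ℂ | 1 ≤ w.re} := measurableSet_le measurable_const Complex.measurable_re
  have h2 : MeasurableSet {w : ℂ | w.re ≤ L} := measurableSet_le Complex.measurable_re measurable_const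
  have h3 : MeasurableSet {w : ℂ | |w.im| ≤ M} :=
    measurableSet_le (_root_.continuous_abs.measurable.comp Complex.measurable_im) measurable_const
  have h4 : MeasurableSet {w : ℂ | r₀ < ‖w‖} := measurableSet_lt measurable_const measurable_norm
  exact h1.inter (h2.inter (h3.inter h4))

/-- the boundary -/
def Bd (L M r₀ η : ℝ) (z : ZI) : Prop :=
  (|(z.re : ℝ) - 1| ≤ 8 * η * L ∧ |(z.im : ℝ)| ≤ 2 * M) ∨ (|(z.re : ℝ) - L| ≤ 8 * η * L ∧ |(z.im : ℝ)| ≤ 2 * M) ∨
  (1 ≤ (z.re : ℝ) ∧ (z.re : ℝ) ≤ L ∧ M - 8 * η * M ≤ (z.im : ℝ) ∧ (z.im : ℝ) ≤ M + 8 * η * M) ∨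
  (1 ≤ (z.re : ℝ) ∧ (z.re : ℝ) ≤ L ∧ -M - 8 * η * M ≤ (z.im : ℝ) ∧ (z.im : ℝ) ≤ -M + 8 * η * M) ∨
  (1 ≤ (z.re : ℝ) ∧ (z.re : ℝ) ≤ L ∧ -r₀ ≤ (z.im : ℝ) ∧ (z.im : ℝ) ≤ r₀)

theorem Fz_eq (L M : ℝ) (z : ZI) : Fz (l1 L) M z =
    if 1 ≤ (z.re : ℝ) ∧ (z.re : ℝ) ≤ L ∧ |(z.im : ℝ)| ≤ M then 1 else 0 := by
  unfold Fz l1
  have e : (1 : ℤ) ≤ z.re ↔ (1 : ℝ) ≤ (z.re : ℝ) := by
    constructor
    · intro h
      exact_mod_cast h
    · intro h
      exact_mod_cast h
  split_ifs with h1 h2 h3 h4 h5 <;> first | rfl | (exfalso; tauto)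

theorem cos_near {x δ : ℝ} (hδ : δ ≤ 1) (hx : |x| ≤ δ) : 1 - δ ≤ Real.cos x ∧ Real.cos x ≤ 1 := by
  refine ⟨?_, Real.cos_le_one x⟩
  have h := Real.one_sub_sq_div_two_le_cos (x := x)
  have : x ^ 2 ≤ δ ^ 2 := by
    rw [← sq_abs x]
    exact pow_le_pow_left₀ (abs_nonneg x) hx 2
  have h0 : 0 ≤ δ := le_trans (abs_nonneg x) hx
  nlinarith

theorem rot_est {η δ ρ x a b L M : ℝ} (hη : 0 ≤ η) (hη1 : η ≤ 1 / 10) (hδη : δ * M ≤ η * L) (hL : 0 ≤ L) (hLM : L ≤ M)
    (hδη' : δ ≤ η) (hρ1 : 1 ≤ ρ) (hρ2 : ρ ≤ 1 + η) (hx : |x| ≤ δ) (ha : |a| ≤ 2 * L) (hb : |b| ≤ 2 * M) :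
    |ρ * (Real.cos x * a - Real.sin x * b) - a| ≤ 8 * η * L ∧
      |ρ * (Real.cos x * b + Real.sin x * a) - b| ≤ 8 * η * M := by
  have hδ0 : 0 ≤ δ := le_trans (abs_nonneg x) hx
  obtain ⟨c1, c2⟩ := cos_near (by linarith) hx
  have hs : |Real.sin x| ≤ δ := (Real.abs_sin_le_abs (x := x)).trans hx
  have hc : |ρ * Real.cos x - 1| ≤ η + δ := by
    rw [abs_le]
    constructor <;> nlinarith
  have hρ0 : |ρ| ≤ 11 / 10 := by
    rw [abs_of_nonneg (by linarith)]
    linarith
  constructor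
  · have e : ρ * (Real.cos x * a - Real.sin x * b) - a = (ρ * Real.cos x - 1) * a - ρ * (Real.sin x * b) := by ring
    rw [e]
    have h1 : |(ρ * Real.cos x - 1) * a| ≤ (η + δ) * (2 * L) := by
      rw [abs_mul]
      exact mul_le_mul hc ha (abs_nonneg _) (by linarith)
    have h2 : |ρ * (Real.sin x * b)| ≤ 11 / 10 * (δ * (2 * M)) := by
      rw [abs_mul, abs_mul]
      exact mul_le_mul hρ0 (mul_le_mul hs hb (abs_nonneg _) hδ0) (by positivity) (by norm_num)
    have h3 := abs_sub (((ρ * Real.cos x - 1) * a)) (ρ * (Real.sin x * b))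
    have h4 : δ * L ≤ η * L := mul_le_mul_of_nonneg_right hδη' hL
    calc |(ρ * Real.cos x - 1) * a - ρ * (Real.sin x * b)| ≤ (η + δ) * (2 * L) + 11 / 10 * (δ * (2 * M)) := by
          linarith
      _ ≤ 8 * η * L := by nlinarith
  · have e : ρ * (Real.cos x * b + Real.sin x * a) - b = (ρ * Real.cos x - 1) * b + ρ * (Real.sin x * a) := by ring
    rw [e]
    have h1 : |(ρ * Real.cos x - 1) * b| ≤ (η + δ) * (2 * M) := by
      rw [abs_mul]
      exact mul_le_mul hc hb (abs_nonneg _) (by linarith)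
    have h2 : |ρ * (Real.sin x * a)| ≤ 11 / 10 * (δ * (2 * L)) := by
      rw [abs_mul, abs_mul]
      exact mul_le_mul hρ0 (mul_le_mul hs ha (abs_nonneg _) hδ0) (by positivity) (by norm_num)
    have h3 := abs_add_le (((ρ * Real.cos x - 1) * b)) (ρ * (Real.sin x * a))
    have hM : 0 ≤ M := by linarith
    have h4 : δ * M ≤ η * M := mul_le_mul_of_nonneg_right hδη' hM
    have h5 : δ * L ≤ η * L := mul_le_mul_of_nonneg_right hδη' hL
    have h6 : η * L ≤ η * M := mul_le_mul_of_nonneg_left hLM hη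
    calc |(ρ * Real.cos x - 1) * b + ρ * (Real.sin x * a)| ≤ (η + δ) * (2 * M) + 11 / 10 * (δ * (2 * L)) := by
          linarith
      _ ≤ 8 * η * M := by nlinarith

/-- away from the boundary nothing changes -/
theorem FC_rot {η δ ρ x L M r₀ : ℝ} (hη : 0 ≤ η) (hη1 : η ≤ 1 / 10) (hδη : δ * M ≤ η * L) (hL : 1 ≤ L) (hLM : L ≤ M)
    (hδη' : δ ≤ η) (hρ1 : 1 ≤ ρ) (hρ2 : ρ ≤ 1 + η) (hx : |x| ≤ δ) (z : ZI)
    (hz : ¬ Bd L M r₀ η z) :
    FC L M r₀ ((ρ : ℂ) * Complex.exp (x * Complex.I) * (z : ℂ)) = Fz (l1 L) M z := by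
  set a : ℝ := (z.re : ℝ) with ha
  set b : ℝ := (z.im : ℝ) with hb
  have hδ0 : 0 ≤ δ := le_trans (abs_nonneg x) hx
  have hL0 : 0 ≤ L := by linarith
  have zre : ((z : ℂ)).re = a := by simp [ha]
  have zim : ((z : ℂ)).im = b := by simp [hb]
  have ere : (Complex.exp (x * Complex.I)).re = Real.cos x := Complex.exp_ofReal_mul_I_re x
  have eim : (Complex.exp (x * Complex.I)).im = Real.sin x := Complex.exp_ofReal_mul_I_im x
  have wre : ((ρ : ℂ) * Complex.exp (x * Complex.I) * (z : ℂ)).re = ρ * (Real.cos x * a - Real.sin x * b) := by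
    rw [mul_assoc, Complex.re_ofReal_mul, Complex.mul_re, ere, eim, zre, zim]
  have wim : ((ρ : ℂ) * Complex.exp (x * Complex.I) * (z : ℂ)).im = ρ * (Real.cos x * b + Real.sin x * a) := by
    rw [mul_assoc, Complex.im_ofReal_mul, Complex.mul_im, ere, eim, zre, zim]
  have wn : ‖(ρ : ℂ) * Complex.exp (x * Complex.I) * (z : ℂ)‖ = ρ * ‖(z : ℂ)‖ := by
    rw [norm_mul, norm_mul, Complex.norm_exp_ofReal_mul_I, Complex.norm_real, Real.norm_of_nonneg (by linarith)]
    ring
  have hsq : Real.cos x ^ 2 + Real.sin x ^ 2 = 1 := Real.cos_sq_add_sin_sq x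
  set p := ρ * (Real.cos x * a - Real.sin x * b) with hp
  set q := ρ * (Real.cos x * b + Real.sin x * a) with hq
  have hs : |Real.sin x| ≤ δ := (Real.abs_sin_le_abs (x := x)).trans hx
  have hδL : δ * L ≤ η * L := mul_le_mul_of_nonneg_right hδη' hL0
  have hηL : η * L ≤ 1 / 10 * L := mul_le_mul_of_nonneg_right hη1 hL0
  rw [Fz_eq]
  unfold FC
  rw [wre, wim, wn]
  by_contra hne
  apply hz
  by_cases h1 : 1 ≤ a ∧ a ≤ L ∧ |b| ≤ M
  · have h2 : ¬ (1 ≤ p ∧ p ≤ L ∧ |q| ≤ M ∧ r₀ < ρ * ‖(z : ℂ)‖) := by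
      intro h2
      rw [if_pos h1, if_pos h2] at hne
      exact hne rfl
    obtain ⟨g1, g2, g3⟩ := h1
    have A1 : |a| ≤ 2 * L := by
      rw [abs_of_nonneg (by linarith)]
      linarith
    have A2 : |b| ≤ 2 * M := by linarith [abs_nonneg b]
    obtain ⟨k1, k2⟩ := rot_est hη hη1 hδη hL0 hLM hδη' hρ1 hρ2 hx A1 A2
    rw [← hp] at k1
    rw [← hq] at k2
    rw [abs_le] at k1
    by_cases c1 : 1 ≤ p
    · by_cases c2 : p ≤ L
      · by_cases c3 : |q| ≤ M
        · have c4 : ρ * ‖(z : ℂ)‖ ≤ r₀ := by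
            by_contra c4
            exact h2 ⟨c1, c2, c3, not_le.1 c4⟩
          right; right; right; right
          have : |b| ≤ ‖(z : ℂ)‖ := by
            rw [← zim]
            exact Complex.abs_im_le_norm _
          have h0 := norm_nonneg (z : ℂ)
          have : |b| ≤ r₀ := by nlinarith
          rw [abs_le] at this
          exact ⟨g1, g2, this.1, this.2⟩
        · have c4 : M - 8 * η * M ≤ |b| := by
            have := abs_sub_abs_le_abs_sub q b
            linarith [not_le.1 c3]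
          rcases le_or_gt 0 b with hb0 | hb0
          · right; right; left
            rw [abs_of_nonneg hb0] at c4 g3
            exact ⟨g1, g2, c4, by nlinarith⟩
          · right; right; right; left
            rw [abs_of_neg hb0] at c4 g3
            exact ⟨g1, g2, by nlinarith, by linarith⟩
      · right; left
        refine ⟨?_, A2⟩
        rw [abs_le]
        constructor <;> nlinarith
    · left
      refine ⟨?_, A2⟩
      rw [abs_le]
      constructor <;> nlinarith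
  · have h2 : 1 ≤ p ∧ p ≤ L ∧ |q| ≤ M ∧ r₀ < ρ * ‖(z : ℂ)‖ := by
      by_contra h2
      rw [if_neg h1, if_neg h2] at hne
      exact hne rfl
    obtain ⟨g1, g2, g3, -⟩ := h2
    have ea : ρ * a = Real.cos x * p + Real.sin x * q := by
      rw [hp, hq]
      linear_combination (-ρ * a) * hsq
    have eb : ρ * b = Real.cos x * q - Real.sin x * p := by
      rw [hp, hq]
      linear_combination (-ρ * b) * hsq
    have hP : |p| ≤ L := by
      rw [abs_of_nonneg (by linarith)]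
      exact g2
    have hcos : |Real.cos x| ≤ 1 := Real.abs_cos_le_one x
    have A1 : |a| ≤ 2 * L := by
      have s1 : |ρ * a| ≤ 1 * L + δ * M := by
        rw [ea]
        refine (abs_add_le _ _).trans ?_
        rw [abs_mul (Real.cos x) p, abs_mul (Real.sin x) q]
        exact add_le_add (mul_le_mul hcos hP (abs_nonneg _) (by norm_num))
          (mul_le_mul hs g3 (abs_nonneg _) hδ0)
      rw [abs_mul, abs_of_nonneg (by linarith : (0 : ℝ) ≤ ρ)] at s1
      have := abs_nonneg a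
      nlinarith
    have A2 : |b| ≤ 2 * M := by
      have s1 : |ρ * b| ≤ 1 * M + δ * L := by
        rw [eb]
        refine (abs_sub _ _).trans ?_
        rw [abs_mul (Real.cos x) q, abs_mul (Real.sin x) p]
        exact add_le_add (mul_le_mul hcos g3 (abs_nonneg _) (by norm_num))
          (mul_le_mul hs hP (abs_nonneg _) hδ0)
      rw [abs_mul, abs_of_nonneg (by linarith : (0 : ℝ) ≤ ρ)] at s1
      have := abs_nonneg b
      nlinarith
    obtain ⟨k1, k2⟩ := rot_est hη hη1 hδη hL0 hLM hδη' hρ1 hρ2 hx A1 A2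
    rw [← hp] at k1
    rw [← hq] at k2
    rw [abs_le] at k1
    by_cases c1 : 1 ≤ a
    · by_cases c2 : a ≤ L
      · have c3 : M < |b| := by
          by_contra c3
          exact h1 ⟨c1, c2, not_lt.1 c3⟩
        have c4 : |b| ≤ M + 8 * η * M := by
          have := abs_sub_abs_le_abs_sub b q
          rw [abs_sub_comm] at this
          linarith
        have hM0 : 0 ≤ η * M := by nlinarith
        rcases le_or_gt 0 b with hb0 | hb0
        · right; right; left
          rw [abs_of_nonneg hb0] at c3 c4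
          exact ⟨c1, c2, by nlinarith, c4⟩
        · right; right; right; left
          rw [abs_of_neg hb0] at c3 c4
          exact ⟨c1, c2, by linarith, by nlinarith⟩
      · right; left
        refine ⟨?_, A2⟩
        rw [abs_le]
        constructor <;> nlinarith
    · left
      refine ⟨?_, A2⟩
      rw [abs_le]
      constructor <;> nlinarith

end Run7.h757.GP
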