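import Mathlib
import Pool.Agent.Run7.h757.GP.GIIa

/-!
# Project GP (helper757): the bilinear sums for the weight `1`.  Integrals
-/

set_option autoImplicit false

namespace Run7.h757.GP

open Finset Filter Topology MeasureTheory
open Pool.Agent.N782.GN
open Pool.Agent.N546.GN.FTaux

theorem sc_nonneg (δ x : ℝ) (t : ZI) : 0 ≤ sc δ x t := by
  unfold sc
  split_ifs <;> norm_num

/-- the point `R exp(ix) v` -/
noncomputable def pt (R x : ℝ) (v : ZI) : ℂ := (R : ℂ) * Complex.exp (x * Complex.I) * (v : ℂ)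

theorem norm_pt {R x : ℝ} (hR : 0 ≤ R) (v : ZI) : ‖pt R x v‖ = R * ‖(v : ℂ)‖ := by
  unfold pt
  rw [norm_mul, norm_mul, Complex.norm_exp_ofReal_mul_I, Complex.norm_real, Real.norm_of_nonneg hR]
  ring

theorem norm_zi (v : ZI) : ‖(v : ℂ)‖ ^ 2 = nz v := by
  rw [← Complex.normSq_eq_norm_sq, Complex.normSq_apply, nz_eq]
  simp
  ring

theorem zi_ne {v : ZI} (hv : v ≠ 0) : (v : ℂ) ≠ 0 := by
  intro h
  exact hv (GaussianInt.toComplex_eq_zero.mp h)

/-- a point of the region lies in one of two narrow sectors -/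
theorem FC_sc {L M r₀ R x : ℝ} (hR : 0 < R) (hr : 0 < r₀) (hL : 0 < L) {v : ZI} (hv : v ≠ 0) :
    FC L M r₀ (pt R x v) ≤ sc (4 * L / r₀) (Real.pi / 2 - 2 * L / r₀ - x) v +
      sc (4 * L / r₀) (-(Real.pi / 2) - 2 * L / r₀ - x) v := by
  by_cases h : 1 ≤ (pt R x v).re ∧ (pt R x v).re ≤ L ∧ |(pt R x v).im| ≤ M ∧ r₀ < ‖pt R x v‖
  swap
  · have : FC L M r₀ (pt R x v) = 0 := by
      unfold FC
      rw [if_neg h]
    rw [this]
    exact add_nonneg (sc_nonneg _ _ _) (sc_nonneg _ _ _)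
  obtain ⟨h1, h2, -, h4⟩ := h
  set w := pt R x v with hw
  have hw0 : 0 < ‖w‖ := by linarith
  have hwne : w ≠ 0 := norm_pos_iff.mp hw0
  set ψ := Complex.arg w with hψ
  have hψ1 : |ψ| < Real.pi / 2 := Complex.abs_arg_lt_pi_div_two_iff.mpr (Or.inl (by linarith))
  have hcos : Real.cos ψ = w.re / ‖w‖ := Complex.cos_arg hwne
  have hcos2 : Real.cos ψ < L / r₀ := by
    rw [hcos, div_lt_div_iff₀ hw0 hr]
    nlinarith
  have ht : Real.pi / 2 - |ψ| < 2 * L / r₀ := by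
    have a1 : 2 / Real.pi * (Real.pi / 2 - |ψ|) ≤ Real.sin (Real.pi / 2 - |ψ|) :=
      Real.mul_le_sin (by linarith) (by linarith [abs_nonneg ψ])
    rw [Real.sin_pi_div_two_sub, Real.cos_abs] at a1
    have a2 : 2 / Real.pi * (Real.pi / 2 - |ψ|) < L / r₀ := by linarith
    have a3 : Real.pi / 2 - |ψ| < Real.pi / 2 * (L / r₀) := by
      have hpi := Real.pi_pos
      have : Real.pi / 2 - |ψ| = Real.pi / 2 * (2 / Real.pi * (Real.pi / 2 - |ψ|)) := by
        field_simp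
      rw [this]
      exact mul_lt_mul_of_pos_left a2 (by positivity)
    have a4 : Real.pi / 2 * (L / r₀) ≤ 2 * L / r₀ := by
      have hpi := Real.pi_le_four
      have : 0 < L / r₀ := by positivity
      have e : 2 * L / r₀ = 2 * (L / r₀) := by ring
      rw [e]
      nlinarith
    linarith
  have harg : ∃ j : ℤ, Complex.arg (v : ℂ) + 2 * Real.pi * j = ψ - x := by
    have hvC := zi_ne hv
    have e1 : (‖w‖ : ℂ) * Complex.exp (ψ * Complex.I) = w := Complex.norm_mul_exp_arg_mul_I w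
    have e2 : (‖(v : ℂ)‖ : ℂ) * Complex.exp (Complex.arg (v : ℂ) * Complex.I) = (v : ℂ) :=
      Complex.norm_mul_exp_arg_mul_I _
    have e3 : w = (R : ℂ) * Complex.exp (x * Complex.I) * (v : ℂ) := rfl
    have e4 : ‖w‖ = R * ‖(v : ℂ)‖ := norm_pt hR.le v
    have e5 : ((R * ‖(v : ℂ)‖ : ℝ) : ℂ) * Complex.exp (ψ * Complex.I) =
        ((R * ‖(v : ℂ)‖ : ℝ) : ℂ) * Complex.exp (x * Complex.I + Complex.arg (v : ℂ) * Complex.I) := by
      rw [← e4, e1, Complex.exp_add, e4]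
      push_cast
      calc w = (R : ℂ) * Complex.exp (x * Complex.I) * (v : ℂ) := e3
        _ = (R : ℂ) * Complex.exp (x * Complex.I) *
            ((‖(v : ℂ)‖ : ℂ) * Complex.exp (Complex.arg (v : ℂ) * Complex.I)) := by rw [e2]
        _ = _ := by ring
    have hne : ((R * ‖(v : ℂ)‖ : ℝ) : ℂ) ≠ 0 := by
      rw [← e4]
      exact_mod_cast hw0.ne'
    have e6 := mul_left_cancel₀ hne e5
    rw [Complex.exp_eq_exp_iff_exists_int] at e6
    obtain ⟨n, hn⟩ := e6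
    refine ⟨n, ?_⟩
    have e7 : (ψ : ℂ) = (x : ℂ) + Complex.arg (v : ℂ) + n * (2 * Real.pi) := by
      have hI := Complex.I_ne_zero
      apply mul_right_cancel₀ hI
      rw [hn]
      ring
    have e8 : ψ = x + Complex.arg (v : ℂ) + n * (2 * Real.pi) := by exact_mod_cast e7
    rw [e8]
    ring
  obtain ⟨j, hj⟩ := harg
  have hFC : FC L M r₀ w ≤ 1 := FC_le _ _ _ _
  rw [abs_lt] at hψ1
  have ed : 4 * L / r₀ = 2 * (2 * L / r₀) := by ring
  rcases le_or_gt 0 ψ with h0 | h0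
  · rw [abs_of_nonneg h0] at ht
    have : sc (4 * L / r₀) (Real.pi / 2 - 2 * L / r₀ - x) v = 1 := by
      unfold sc
      rw [if_pos]
      refine ⟨j, ?_, ?_⟩
      · rw [hj]
        linarith
      · rw [hj, ed]
        linarith
    have := sc_nonneg (4 * L / r₀) (-(Real.pi / 2) - 2 * L / r₀ - x) v
    linarith
  · rw [abs_of_neg h0] at ht
    have : sc (4 * L / r₀) (-(Real.pi / 2) - 2 * L / r₀ - x) v = 1 := by
      unfold sc
      rw [if_pos]
      refine ⟨j, ?_, ?_⟩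
      · rw [hj]
        have : 0 < 2 * L / r₀ := by positivity
        linarith
      · rw [hj, ed]
        linarith
    have := sc_nonneg (4 * L / r₀) (Real.pi / 2 - 2 * L / r₀ - x) v
    linarith

theorem FC_supp {L M r₀ R x : ℝ} (hR : 0 < R) (hL : 0 ≤ L) (hLM : L ≤ M) {v : ZI} (h : FC L M r₀ (pt R x v) ≠ 0) :
    nz v ≤ 2 * M ^ 2 / R ^ 2 := by
  unfold FC at h
  split_ifs at h with h0
  · obtain ⟨h1, h2, h3, -⟩ := h0
    have e : ‖pt R x v‖ ^ 2 = R ^ 2 * nz v := by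
      rw [norm_pt hR.le, mul_pow, norm_zi]
    have e2 : ‖pt R x v‖ ^ 2 = (pt R x v).re ^ 2 + (pt R x v).im ^ 2 := by
      rw [← Complex.normSq_eq_norm_sq, Complex.normSq_apply]
      ring
    have e3 : (pt R x v).im ^ 2 ≤ M ^ 2 := by
      rw [← sq_abs]
      exact pow_le_pow_left₀ (abs_nonneg _) h3 2
    rw [le_div_iff₀ (by positivity)]
    nlinarith
  · exact absurd rfl h

theorem FC_pt_meas (L M r₀ R : ℝ) (v : ZI) : Measurable (fun x => FC L M r₀ (pt R x v)) := by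
  apply (FC_meas L M r₀).comp
  unfold pt
  fun_prop

/-- the sums over `b` -/
noncomputable def Sx (δ : ℝ) (s : Finset ZI) (a : ZI → ℝ) (x : ℝ) : ℝ := ∑ v ∈ s, a v * sc δ x v

/-- the sums over `v` -/
noncomputable def Ax (L M r₀ R : ℝ) (s : Finset ZI) (a : ZI → ℝ) (x : ℝ) : ℝ := ∑ v ∈ s, a v * FC L M r₀ (pt R x v)

theorem sc_meas (δ : ℝ) (t : ZI) : Measurable (fun x => sc δ x t) := by
  have : (fun x => sc δ x t) = gI δ (Complex.arg (t : ℂ)) := by
    funext x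
    exact sc_eq δ x t
  rw [this]
  exact gI_meas _ _

theorem abs_sc_le (δ x : ℝ) (t : ZI) : |sc δ x t| ≤ 1 := by
  rw [sc_eq]
  exact gI_abs _ _ _

theorem Sx_meas (δ : ℝ) (s : Finset ZI) (a : ZI → ℝ) : Measurable (Sx δ s a) := by
  unfold Sx
  exact Finset.measurable_fun_sum _ fun v _ => (sc_meas δ v).const_mul _

theorem Sx_bdd (δ : ℝ) (s : Finset ZI) (a : ZI → ℝ) (x : ℝ) : |Sx δ s a x| ≤ ∑ v ∈ s, |a v| := by
  unfold Sx
  refine (abs_sum_le_sum_abs _ _).trans (sum_le_sum fun v _ => ?_)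
  rw [abs_mul]
  have := abs_sc_le δ x v
  nlinarith [abs_nonneg (a v)]

theorem Ax_meas (L M r₀ R : ℝ) (s : Finset ZI) (a : ZI → ℝ) : Measurable (Ax L M r₀ R s a) := by
  unfold Ax
  exact Finset.measurable_fun_sum _ fun v _ => (FC_pt_meas L M r₀ R v).const_mul _

theorem abs_FC_le (L M r₀ : ℝ) (w : ℂ) : |FC L M r₀ w| ≤ 1 := by
  rw [abs_of_nonneg (FC_nonneg _ _ _ _)]
  exact FC_le _ _ _ _

theorem Ax_bdd (L M r₀ R : ℝ) (s : Finset ZI) (a : ZI → ℝ) (x : ℝ) : |Ax L M r₀ R s a x| ≤ ∑ v ∈ s, |a v| := by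
  unfold Ax
  refine (abs_sum_le_sum_abs _ _).trans (sum_le_sum fun v _ => ?_)
  rw [abs_mul]
  have := abs_FC_le L M r₀ (pt R x v)
  nlinarith [abs_nonneg (a v)]

theorem intble {f : ℝ → ℝ} (hf : Measurable f) {K : ℝ} (hK : ∀ x, |f x| ≤ K) (a b : ℝ) :
    IntervalIntegrable f volume a b := by
  have h1 : IntervalIntegrable (fun _ : ℝ => K) volume a b := intervalIntegrable_const
  refine h1.mono_fun hf.aestronglyMeasurable ?_
  refine Filter.Eventually.of_forall fun x => ?_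
  show ‖f x‖ ≤ ‖K‖
  rw [Real.norm_eq_abs, Real.norm_eq_abs]
  exact (hK x).trans (le_abs_self K)

theorem Sx_per (δ : ℝ) (s : Finset ZI) (a : ZI → ℝ) : Function.Periodic (Sx δ s a) (2 * Real.pi) := by
  intro x
  unfold Sx
  apply sum_congr rfl
  intro v _
  rw [sc_eq, sc_eq, gI_per]

theorem Sx_refl (δ y : ℝ) (s : Finset ZI) (a : ZI → ℝ) :
    ∫ x in (0 : ℝ)..(2 * Real.pi), (Sx δ s a (y - x)) ^ 2 = ∫ x in (0 : ℝ)..(2 * Real.pi), (Sx δ s a x) ^ 2 := by
  rw [intervalIntegral.integral_comp_sub_left (fun x => (Sx δ s a x) ^ 2)]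
  have hper : Function.Periodic (fun x => (Sx δ s a x) ^ 2) (2 * Real.pi) := by
    intro x
    simp only [Sx_per δ s a x]
  have := hper.intervalIntegral_add_eq (y - 2 * Real.pi) 0
  rw [zero_add] at this
  rw [← this]
  congr 1 <;> ring

/-- the sum over `v` is dominated by two sector sums -/
theorem Ax_sq {L M r₀ R : ℝ} (hR : 1 ≤ R) (hr : 0 < r₀) (hL : 0 < L) (hLM : L ≤ M) (a : ZI → ℝ) (ha : ∀ v, 0 ≤ a v) :
    ∫ x in (0 : ℝ)..(2 * Real.pi), (Ax L M r₀ R (bl (2 * M ^ 2)) a x) ^ 2 ≤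
      4 * ∫ x in (0 : ℝ)..(2 * Real.pi), (Sx (4 * L / r₀) (bl (2 * M ^ 2 / R ^ 2)) a x) ^ 2 := by
  have hR0 : 0 < R := by linarith
  set s := bl (2 * M ^ 2 / R ^ 2) with hs
  set δ₂ := 4 * L / r₀ with hδ₂
  set y1 := Real.pi / 2 - 2 * L / r₀ with hy1
  set y2 := -(Real.pi / 2) - 2 * L / r₀ with hy2
  have hle : ∀ x, 0 ≤ Ax L M r₀ R (bl (2 * M ^ 2)) a x ∧
      Ax L M r₀ R (bl (2 * M ^ 2)) a x ≤ Sx δ₂ s a (y1 - x) + Sx δ₂ s a (y2 - x) := by
    intro x
    constructor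
    · unfold Ax
      exact sum_nonneg fun v _ => mul_nonneg (ha v) (FC_nonneg _ _ _ _)
    · unfold Ax Sx
      have hsub : s ⊆ bl (2 * M ^ 2) := by
        intro v hv
        rw [hs, mem_bl] at hv
        rw [mem_bl]
        refine ⟨hv.1, hv.2.trans ?_⟩
        rw [div_le_iff₀ (by positivity)]
        have : 1 ≤ R ^ 2 := by nlinarith
        nlinarith [sq_nonneg M]
      have e : ∑ v ∈ bl (2 * M ^ 2), a v * FC L M r₀ (pt R x v) = ∑ v ∈ s, a v * FC L M r₀ (pt R x v) := by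
        symm
        apply sum_subset hsub
        intro v hv hvs
        rw [mem_bl] at hv
        rw [hs, mem_bl] at hvs
        by_contra hne
        apply hvs
        have hne2 : FC L M r₀ (pt R x v) ≠ 0 := by
          intro h0
          exact hne (by rw [h0, mul_zero])
        exact ⟨hv.1, FC_supp hR0 hL.le hLM hne2⟩
      rw [e, ← sum_add_distrib]
      apply sum_le_sum
      intro v hv
      rw [hs, mem_bl] at hv
      rw [← mul_add]
      exact mul_le_mul_of_nonneg_left (FC_sc hR0 hr hL hv.1) (ha v)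
  have h1 : ∫ x in (0 : ℝ)..(2 * Real.pi), (Ax L M r₀ R (bl (2 * M ^ 2)) a x) ^ 2 ≤
      ∫ x in (0 : ℝ)..(2 * Real.pi), (2 * (Sx δ₂ s a (y1 - x)) ^ 2 + 2 * (Sx δ₂ s a (y2 - x)) ^ 2) := by
    apply intervalIntegral.integral_mono_on (by positivity)
    · refine intble ((Ax_meas _ _ _ _ _ _).pow_const 2) (K := (∑ v ∈ bl (2 * M ^ 2), |a v|) ^ 2) ?_ _ _
      intro x
      rw [abs_pow]
      exact pow_le_pow_left₀ (abs_nonneg _) (Ax_bdd _ _ _ _ _ _ _) 2
    · have hm : ∀ y : ℝ, Measurable (fun x => 2 * (Sx δ₂ s a (y - x)) ^ 2) := by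
        intro y
        have h1 : Measurable (fun x : ℝ => y - x) := by fun_prop
        exact (((Sx_meas δ₂ s a).comp h1).pow_const 2).const_mul 2
      have hb : ∀ y x : ℝ, |2 * (Sx δ₂ s a (y - x)) ^ 2| ≤ 2 * (∑ v ∈ s, |a v|) ^ 2 := by
        intro y x
        rw [abs_mul, abs_pow, abs_of_pos (by norm_num : (0 : ℝ) < 2)]
        have := pow_le_pow_left₀ (abs_nonneg _) (Sx_bdd δ₂ s a (y - x)) 2
        linarith
      exact (intble (hm y1) (hb y1) _ _).add (intble (hm y2) (hb y2) _ _)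
    · intro x _
      obtain ⟨g1, g2⟩ := hle x
      have := pow_le_pow_left₀ g1 g2 2
      nlinarith [sq_nonneg (Sx δ₂ s a (y1 - x) - Sx δ₂ s a (y2 - x))]
  refine h1.trans (le_of_eq ?_)
  have hm : ∀ y : ℝ, Measurable (fun x => 2 * (Sx δ₂ s a (y - x)) ^ 2) := by
    intro y
    have h1 : Measurable (fun x : ℝ => y - x) := by fun_prop
    exact (((Sx_meas δ₂ s a).comp h1).pow_const 2).const_mul 2
  have hb : ∀ y x : ℝ, |2 * (Sx δ₂ s a (y - x)) ^ 2| ≤ 2 * (∑ v ∈ s, |a v|) ^ 2 := by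
    intro y x
    rw [abs_mul, abs_pow, abs_of_pos (by norm_num : (0 : ℝ) < 2)]
    have := pow_le_pow_left₀ (abs_nonneg _) (Sx_bdd δ₂ s a (y - x)) 2
    linarith
  rw [intervalIntegral.integral_add (intble (hm y1) (hb y1) _ _) (intble (hm y2) (hb y2) _ _),
    intervalIntegral.integral_const_mul, intervalIntegral.integral_const_mul, Sx_refl, Sx_refl]
  ring

/-- Cauchy-Schwarz in the form needed -/
theorem cs_int {f g : ℝ → ℝ} (hf : Measurable f) (hg : Measurable g) {K1 K2 : ℝ} (h1 : ∀ x, |f x| ≤ K1)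
    (h2 : ∀ x, |g x| ≤ K2) {E1 E2 : ℝ} (hE1 : 0 < E1) (hE2 : 0 < E2)
    (hf2 : ∫ x in (0 : ℝ)..(2 * Real.pi), (f x) ^ 2 ≤ E1 ^ 2) (hg2 : ∫ x in (0 : ℝ)..(2 * Real.pi), (g x) ^ 2 ≤ E2 ^ 2) :
    |∫ x in (0 : ℝ)..(2 * Real.pi), f x * g x| ≤ E1 * E2 := by
  have hp : (0 : ℝ) ≤ 2 * Real.pi := by positivity
  have k1 : IntervalIntegrable (fun x => (f x) ^ 2) volume 0 (2 * Real.pi) := by
    refine intble (hf.pow_const 2) (K := K1 ^ 2) ?_ _ _
    intro x
    rw [abs_pow]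
    exact pow_le_pow_left₀ (abs_nonneg _) (h1 x) 2
  have k2 : IntervalIntegrable (fun x => (g x) ^ 2) volume 0 (2 * Real.pi) := by
    refine intble (hg.pow_const 2) (K := K2 ^ 2) ?_ _ _
    intro x
    rw [abs_pow]
    exact pow_le_pow_left₀ (abs_nonneg _) (h2 x) 2
  have k3 : IntervalIntegrable (fun x => |f x * g x|) volume 0 (2 * Real.pi) := by
    refine intble (measurable_norm.comp (hf.mul hg)) (K := K1 * K2) ?_ _ _
    intro x
    show |‖f x * g x‖| ≤ K1 * K2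
    rw [Real.norm_eq_abs, abs_abs, abs_mul]
    exact mul_le_mul (h1 x) (h2 x) (abs_nonneg _) ((abs_nonneg _).trans (h1 x))
  have key : ∫ x in (0 : ℝ)..(2 * Real.pi), |f x * g x| ≤
      ∫ x in (0 : ℝ)..(2 * Real.pi), (E2 / (2 * E1) * (f x) ^ 2 + E1 / (2 * E2) * (g x) ^ 2) := by
    apply intervalIntegral.integral_mono_on hp k3 ((k1.const_mul _).add (k2.const_mul _))
    intro x _
    have e : E2 / (2 * E1) * (f x) ^ 2 + E1 / (2 * E2) * (g x) ^ 2 - |f x * g x| =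
        (E2 * |f x| - E1 * |g x|) ^ 2 / (2 * E1 * E2) := by
      rw [abs_mul, ← sq_abs (f x), ← sq_abs (g x)]
      field_simp
      ring
    have : 0 ≤ (E2 * |f x| - E1 * |g x|) ^ 2 / (2 * E1 * E2) := by positivity
    linarith
  have h3 : |∫ x in (0 : ℝ)..(2 * Real.pi), f x * g x| ≤ ∫ x in (0 : ℝ)..(2 * Real.pi), |f x * g x| :=
    intervalIntegral.abs_integral_le_integral_abs hp
  rw [intervalIntegral.integral_add (k1.const_mul _) (k2.const_mul _), intervalIntegral.integral_const_mul,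
    intervalIntegral.integral_const_mul] at key
  have h4 : E2 / (2 * E1) * ∫ x in (0 : ℝ)..(2 * Real.pi), (f x) ^ 2 ≤ E2 / (2 * E1) * E1 ^ 2 :=
    mul_le_mul_of_nonneg_left hf2 (by positivity)
  have h5 : E1 / (2 * E2) * ∫ x in (0 : ℝ)..(2 * Real.pi), (g x) ^ 2 ≤ E1 / (2 * E2) * E2 ^ 2 :=
    mul_le_mul_of_nonneg_left hg2 (by positivity)
  have e1 : E2 / (2 * E1) * E1 ^ 2 = E1 * E2 / 2 := by
    field_simp
  have e2 : E1 / (2 * E2) * E2 ^ 2 = E1 * E2 / 2 := by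
    field_simp
  linarith

end Run7.h757.GP
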