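import Mathlib
import Pool.Agent.Run7.h757.GP.Stm
import Pool.Agent.N954.GN.Div
import Pool.Agent.N458.GN.TI
import Pool.Agent.N7.GN.Rls3

/-!
# Project GP (helper757): STR, divisors of the Gaussian integers in a vertical strip
-/

set_option autoImplicit false

namespace Run7.h757.GP

open Finset Filter Topology
open Pool.Agent.N782.GN

/-- a set of integers in an interval, with differences divisible by `q` -/
theorem card_prog (S : Finset ℤ) (A B : ℝ) (q : ℤ) (hq : 1 ≤ q) (hAB : A ≤ B)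
    (h1 : ∀ m ∈ S, A ≤ (m : ℝ) ∧ (m : ℝ) ≤ B) (h2 : ∀ m ∈ S, ∀ n ∈ S, q ∣ m - n) :
    (#S : ℝ) ≤ (B - A) / q + 1 := by
  have hq' : (1 : ℝ) ≤ q := by exact_mod_cast hq
  rcases S.eq_empty_or_nonempty with h | hne
  · rw [h]
    simp only [card_empty, Nat.cast_zero]
    have : 0 ≤ (B - A) / q := div_nonneg (by linarith) (by linarith)
    linarith
  · obtain ⟨m0, hm0, hmin⟩ := S.exists_min_image id hne
    have hsub : S ⊆ (Icc (0 : ℤ) ⌊(B - A) / q⌋).image (fun k => m0 + q * k) := by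
      intro m hm
      obtain ⟨k, hk⟩ := h2 m hm m0 hm0
      rw [mem_image]
      refine ⟨k, ?_, by linarith⟩
      rw [mem_Icc]
      have hk0 : 0 ≤ m - m0 := by
        have := hmin m hm
        simp only [id] at this
        linarith
      have hk1 : 0 ≤ k := by
        rw [hk] at hk0
        exact nonneg_of_mul_nonneg_right hk0 (by linarith)
      refine ⟨hk1, ?_⟩
      rw [Int.le_floor, le_div_iff₀ (by linarith)]
      have e1 : ((m - m0 : ℤ) : ℝ) = ((q * k : ℤ) : ℝ) := by rw [hk]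
      push_cast at e1
      have := (h1 m hm).2
      have := (h1 m0 hm0).1
      nlinarith
    have hc := card_le_card hsub
    have hc2 := card_image_le (s := Icc (0 : ℤ) ⌊(B - A) / q⌋) (f := fun k => m0 + q * k)
    rw [Int.card_Icc] at hc2
    have h0 : 0 ≤ (B - A) / (q : ℝ) := div_nonneg (by linarith) (by linarith)
    have hfl : 0 ≤ ⌊(B - A) / (q : ℝ)⌋ := Int.floor_nonneg.mpr h0
    have e2 : (((⌊(B - A) / (q : ℝ)⌋ + 1 - 0).toNat : ℕ) : ℝ) = (⌊(B - A) / (q : ℝ)⌋ : ℝ) + 1 := by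
      have : (((⌊(B - A) / (q : ℝ)⌋ + 1 - 0).toNat : ℕ) : ℤ) = ⌊(B - A) / (q : ℝ)⌋ + 1 := by
        rw [Int.toNat_of_nonneg (by linarith)]
        ring
      exact_mod_cast this
    calc (#S : ℝ) ≤ (((⌊(B - A) / (q : ℝ)⌋ + 1 - 0).toNat : ℕ) : ℝ) := by exact_mod_cast hc.trans hc2
      _ = (⌊(B - A) / (q : ℝ)⌋ : ℝ) + 1 := e2
      _ ≤ _ := by
          have := Int.floor_le ((B - A) / (q : ℝ))
          linarith

open Classical in
/-- the number of the `m` for given `l` -/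
theorem card_m {M : ℝ} (hM : 0 ≤ M) {d : ZI} (hd : d ≠ 0) (l : ℤ) :
    (#((Icc ⌈-(2 * M)⌉ ⌊2 * M⌋).filter (fun m : ℤ => d ∣ (⟨l, m⟩ : ZI))) : ℝ) ≤
      4 * M * ((ct d : ℝ) / nz d) + 1 := by
  obtain ⟨a0, e0, e1, e2⟩ := Pool.Agent.N458.GN.prim_part hd
  have hr := Pool.Agent.N7.GN.Rls.rls.1 a0 e1
  have hg : 1 ≤ ct d := Pool.Agent.N458.GN.ct_pos hd
  set g := ct d with hgdef
  have hnz : nz d = (g : ℝ) ^ 2 * nz a0 := by
    conv_lhs => rw [e0]
    rw [Pool.Agent.N458.GN.nz_scale]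
  have hn1 : 1 ≤ nz a0 := Pool.Agent.N954.GN.one_le_nz e2
  have hgR : (1 : ℝ) ≤ g := by exact_mod_cast hg
  have hnorm : 1 ≤ Zsqrtd.norm a0 := by
    have : (1 : ℝ) ≤ ((Zsqrtd.norm a0 : ℤ) : ℝ) := hn1
    exact_mod_cast this
  have hq : (1 : ℤ) ≤ (g : ℤ) * Zsqrtd.norm a0 := by
    have : (1 : ℤ) ≤ (g : ℤ) := by exact_mod_cast hg
    nlinarith
  have key := card_prog ((Icc ⌈-(2 * M)⌉ ⌊2 * M⌋).filter (fun m : ℤ => d ∣ (⟨l, m⟩ : ZI))) (-(2 * M)) (2 * M)
    ((g : ℤ) * Zsqrtd.norm a0) hq (by linarith) ?_ ?_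
  · refine key.trans (le_of_eq ?_)
    rw [hnz]
    have e3 : (((g : ℤ) * Zsqrtd.norm a0 : ℤ) : ℝ) = g * nz a0 := by
      unfold nz
      push_cast
      ring
    rw [e3]
    have hn0 : nz a0 ≠ 0 := by linarith
    have hg0 : (g : ℝ) ≠ 0 := by linarith
    field_simp
    ring
  · intro m hm
    rw [mem_filter, mem_Icc] at hm
    exact ⟨Int.ceil_le.mp hm.1.1, Int.le_floor.mp hm.1.2⟩
  · intro m hm n hn
    rw [mem_filter] at hm hn
    have hm2 := hm.2
    have hn2 := hn.2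
    rw [e0] at hm2 hn2
    obtain ⟨hl1, hm3⟩ := Pool.Agent.N458.GN.scale2 a0 g l m hm2
    obtain ⟨-, hn3⟩ := Pool.Agent.N458.GN.scale2 a0 g l n hn2
    obtain ⟨l', rfl⟩ := hl1
    obtain ⟨m', rfl⟩ := hm3
    obtain ⟨n', rfl⟩ := hn3
    rw [Pool.Agent.N458.GN.scale1 a0 g hg] at hm2 hn2
    have h3 := (hr l' m').mp hm2
    have h4 := (hr l' n').mp hn2
    have h5 : Zsqrtd.norm a0 ∣ m' - n' := by
      have := dvd_sub h3 h4
      have e : m' - nu a0 * l' - (n' - nu a0 * l') = m' - n' := by ring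
      rwa [e] at this
    have e : (g : ℤ) * m' - (g : ℤ) * n' = (g : ℤ) * (m' - n') := by ring
    rw [e]
    exact mul_dvd_mul_left _ h5

/-- the sum of `ct d / N(d)` -/
theorem sum_ct {X : ℝ} (hX : 1 ≤ X) :
    ∑ d ∈ bl X, (ct d : ℝ) / nz d ≤ 12 * (1 + Real.log X) ^ 2 := by
  classical
  set G := ⌊X⌋₊ with hG
  have h1 : ∑ d ∈ bl X, (ct d : ℝ) / nz d ≤ ∑ p ∈ (Icc 1 G) ×ˢ (bl X), 1 / ((p.1 : ℝ) * nz p.2) := by
    have e1 : ∑ d ∈ bl X, (ct d : ℝ) / nz d =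
        ∑ d ∈ bl X, 1 / (((ct d : ℕ) : ℝ) * nz (Pool.Agent.N458.GN.pr d)) := by
      apply sum_congr rfl
      intro d hd
      rw [mem_bl] at hd
      obtain ⟨f1, f2, f3⟩ := Pool.Agent.N458.GN.pr_spec hd.1
      have hnz : nz d = (ct d : ℝ) ^ 2 * nz (Pool.Agent.N458.GN.pr d) := by
        conv_lhs => rw [f1]
        rw [Pool.Agent.N458.GN.nz_scale]
      have hn1 := Pool.Agent.N954.GN.one_le_nz f3
      have hg : (1 : ℝ) ≤ ct d := by exact_mod_cast Pool.Agent.N458.GN.ct_pos hd.1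
      rw [hnz]
      have hn0 : nz (Pool.Agent.N458.GN.pr d) ≠ 0 := by linarith
      have hg0 : (ct d : ℝ) ≠ 0 := by linarith
      field_simp
    rw [e1]
    have hinj : Set.InjOn (fun d : ZI => (ct d, Pool.Agent.N458.GN.pr d)) (bl X : Finset ZI) := by
      intro d hd d' hd' h
      rw [mem_coe, mem_bl] at hd hd'
      simp only [Prod.mk.injEq] at h
      rw [(Pool.Agent.N458.GN.pr_spec hd.1).1, (Pool.Agent.N458.GN.pr_spec hd'.1).1, h.1, h.2]
    rw [← sum_image (f := fun p : ℕ × ZI => 1 / ((p.1 : ℝ) * nz p.2)) hinj]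
    apply sum_le_sum_of_subset_of_nonneg
    · intro p hp
      rw [mem_image] at hp
      obtain ⟨d, hd, rfl⟩ := hp
      rw [mem_bl] at hd
      obtain ⟨f1, f2, f3⟩ := Pool.Agent.N458.GN.pr_spec hd.1
      have hnz : nz d = (ct d : ℝ) ^ 2 * nz (Pool.Agent.N458.GN.pr d) := by
        conv_lhs => rw [f1]
        rw [Pool.Agent.N458.GN.nz_scale]
      have hn1 := Pool.Agent.N954.GN.one_le_nz f3
      have hg : (1 : ℝ) ≤ ct d := by exact_mod_cast Pool.Agent.N458.GN.ct_pos hd.1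
      rw [mem_product, mem_Icc, mem_bl]
      refine ⟨⟨Pool.Agent.N458.GN.ct_pos hd.1, ?_⟩, f3, ?_⟩
      · apply Nat.le_floor
        show ((ct d : ℕ) : ℝ) ≤ X
        nlinarith
      · show nz (Pool.Agent.N458.GN.pr d) ≤ X
        have h1 : 1 * nz (Pool.Agent.N458.GN.pr d) ≤ (ct d : ℝ) ^ 2 * nz (Pool.Agent.N458.GN.pr d) := by
          apply mul_le_mul_of_nonneg_right _ (by linarith)
          nlinarith
        linarith [hd.2]
    · intro p _ _
      have := nz_nonneg p.2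
      positivity
  refine h1.trans ?_
  rw [sum_product]
  have h2 : ∀ g ∈ Icc 1 G, ∑ a ∈ bl X, 1 / ((g : ℝ) * nz a) ≤ 1 / (g : ℝ) * (12 * (1 + Real.log X)) := by
    intro g _
    have e : ∑ a ∈ bl X, 1 / ((g : ℝ) * nz a) = 1 / (g : ℝ) * ∑ a ∈ bl X, 1 / nz a := by
      rw [mul_sum]
      apply sum_congr rfl
      intro a _
      rw [one_div_mul_one_div]
    rw [e]
    apply mul_le_mul_of_nonneg_left (Pool.Agent.N954.GN.sum_inv_norm X hX) (by positivity)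
  refine (sum_le_sum h2).trans ?_
  rw [← sum_mul]
  have h3 : ∑ g ∈ Icc 1 G, 1 / (g : ℝ) ≤ 1 + Real.log X := by
    have hh := harmonic_le_one_add_log G
    have e : ∑ g ∈ Icc 1 G, 1 / (g : ℝ) = ((harmonic G : ℚ) : ℝ) := by
      rw [harmonic_eq_sum_Icc]
      push_cast
      simp
    rw [e]
    have hG1 : 1 ≤ G := by
      apply Nat.le_floor
      exact_mod_cast hX
    have hGX : (G : ℝ) ≤ X := Nat.floor_le (by linarith)
    have := Real.log_le_log (by exact_mod_cast hG1 : (0 : ℝ) < (G : ℝ)) hGX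
    linarith
  have hl : 0 ≤ Real.log X := Real.log_nonneg hX
  calc (∑ g ∈ Icc 1 G, 1 / (g : ℝ)) * (12 * (1 + Real.log X)) ≤ (1 + Real.log X) * (12 * (1 + Real.log X)) :=
        mul_le_mul_of_nonneg_right h3 (by positivity)
    _ = _ := by ring

theorem str : S_STR := by
  classical
  refine ⟨10000, by norm_num, ?_⟩
  intro M x1 x2 hM hx hx1 hx2
  have hlog1 : 1 ≤ Real.log M := by
    rw [Real.le_log_iff_exp_le (by linarith)]
    exact (Real.exp_one_lt_d9.trans_le (by norm_num)).le.trans hM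
  have hX : (1 : ℝ) ≤ 3 * M := by linarith
  have h1 : ∀ l ∈ Ioc x1 x2, ∀ m ∈ Icc ⌈-(2 * M)⌉ ⌊2 * M⌋, (dv (⟨l, m⟩ : ZI) : ℝ) ≤
      2 * ∑ d ∈ bl (3 * M), if d ∣ (⟨l, m⟩ : ZI) then (1 : ℝ) else 0 := by
    intro l hl m hm
    rw [mem_Ioc] at hl
    rw [mem_Icc] at hm
    by_cases hz : (⟨l, m⟩ : ZI) = 0
    · rw [hz]
      have e : dv (0 : ZI) = 0 := by
        unfold dv
        rw [card_eq_zero, filter_eq_empty_iff]
        intro d hd
        rw [mem_bl] at hd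
        exfalso
        have h0 : nz (0 : ZI) = 0 := by
          rw [nz_eq]
          simp
        have := Pool.Agent.N954.GN.one_le_nz hd.1
        rw [h0] at hd
        linarith [hd.2]
      rw [e]
      simp only [Nat.cast_zero]
      apply mul_nonneg (by norm_num)
      apply sum_nonneg
      intro d _
      split_ifs <;> norm_num
    · have hnz : nz (⟨l, m⟩ : ZI) ≤ (3 * M) ^ 2 := by
        rw [nz_eq]
        have a1 : |(l : ℝ)| ≤ 2 * M := by
          rw [abs_le]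
          rw [abs_le] at hx1 hx2
          have b1 : (x1 : ℝ) < l := by exact_mod_cast hl.1
          have b2 : (l : ℝ) ≤ x2 := by exact_mod_cast hl.2
          constructor <;> linarith
        have a2 : |(m : ℝ)| ≤ 2 * M := by
          rw [abs_le]
          exact ⟨Int.ceil_le.mp hm.1, Int.le_floor.mp hm.2⟩
        have b1 := sq_abs (l : ℝ)
        have b2 := sq_abs (m : ℝ)
        have c1 := abs_nonneg (l : ℝ)
        have c2 := abs_nonneg (m : ℝ)
        show (l : ℝ) ^ 2 + (m : ℝ) ^ 2 ≤ (3 * M) ^ 2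
        nlinarith
      have := Pool.Agent.N954.GN.dv_le (by linarith : (0 : ℝ) < 3 * M) hz hnz
      have e : ∑ d ∈ bl (3 * M), (if d ∣ (⟨l, m⟩ : ZI) then (1 : ℝ) else 0) =
          (#((bl (3 * M)).filter fun d => d ∣ (⟨l, m⟩ : ZI)) : ℝ) := by
        rw [sum_boole]
      rw [e]
      exact_mod_cast this
  have h2 : ∑ l ∈ Ioc x1 x2, ∑ m ∈ Icc ⌈-(2 * M)⌉ ⌊2 * M⌋, (dv (⟨l, m⟩ : ZI) : ℝ) ≤
      ∑ l ∈ Ioc x1 x2, ∑ m ∈ Icc ⌈-(2 * M)⌉ ⌊2 * M⌋,
        2 * ∑ d ∈ bl (3 * M), if d ∣ (⟨l, m⟩ : ZI) then (1 : ℝ) else 0 :=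
    sum_le_sum fun l hl => sum_le_sum fun m hm => h1 l hl m hm
  refine h2.trans ?_
  have h3 : ∀ l ∈ Ioc x1 x2, ∑ m ∈ Icc ⌈-(2 * M)⌉ ⌊2 * M⌋,
        2 * ∑ d ∈ bl (3 * M), (if d ∣ (⟨l, m⟩ : ZI) then (1 : ℝ) else 0) ≤
      2 * ∑ d ∈ bl (3 * M), (4 * M * ((ct d : ℝ) / nz d) + 1) := by
    intro l _
    rw [← mul_sum, sum_comm]
    apply mul_le_mul_of_nonneg_left _ (by norm_num)
    apply sum_le_sum
    intro d hd
    rw [mem_bl] at hd
    rw [sum_boole]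
    exact card_m (by linarith) hd.1 l
  refine (sum_le_sum h3).trans ?_
  rw [sum_const, Int.card_Ioc, nsmul_eq_mul]
  have e1 : (((x2 - x1).toNat : ℕ) : ℝ) = (x2 : ℝ) - x1 := by
    have : (((x2 - x1).toNat : ℕ) : ℤ) = x2 - x1 := Int.toNat_of_nonneg (by linarith)
    exact_mod_cast this
  rw [e1]
  have h4 : ∑ d ∈ bl (3 * M), (4 * M * ((ct d : ℝ) / nz d) + 1) ≤ 4 * M * (12 * (1 + Real.log (3 * M)) ^ 2) + 12 * (3 * M) := by
    rw [sum_add_distrib, ← mul_sum, sum_const, nsmul_eq_mul, mul_one]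
    have := sum_ct hX
    have := Pool.Agent.N954.GN.card_bl_le (3 * M) hX
    have hM0 : 0 ≤ 4 * M := by linarith
    have := mul_le_mul_of_nonneg_left (sum_ct hX) hM0
    linarith
  have h5 : Real.log (3 * M) ≤ 2 * Real.log M + 1 := by
    rw [Real.log_mul (by norm_num) (by linarith)]
    have : Real.log 3 ≤ Real.log M := Real.log_le_log (by norm_num) hM
    linarith
  have h6 : 0 ≤ Real.log (3 * M) := Real.log_nonneg hX
  have h7 : (1 + Real.log (3 * M)) ^ 2 ≤ 16 * (Real.log M) ^ 2 := by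
    have : 1 + Real.log (3 * M) ≤ 4 * Real.log M := by linarith
    nlinarith
  have hx0 : (0 : ℝ) ≤ (x2 : ℝ) - x1 := by
    have : (x1 : ℝ) ≤ x2 := by exact_mod_cast hx
    linarith
  have h8 : 2 * ∑ d ∈ bl (3 * M), (4 * M * ((ct d : ℝ) / nz d) + 1) ≤ 10000 * (M * (Real.log M) ^ 2) := by
    have hl2 : 1 ≤ (Real.log M) ^ 2 := by nlinarith
    have : M ≤ M * (Real.log M) ^ 2 := by nlinarith
    have : 4 * M * (12 * (1 + Real.log (3 * M)) ^ 2) ≤ 4 * M * (12 * (16 * (Real.log M) ^ 2)) := by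
      apply mul_le_mul_of_nonneg_left _ (by linarith)
      linarith
    nlinarith
  have h9 : (0 : ℝ) ≤ M * (Real.log M) ^ 2 := by positivity
  calc ((x2 : ℝ) - x1) * (2 * ∑ d ∈ bl (3 * M), (4 * M * ((ct d : ℝ) / nz d) + 1)) ≤
      ((x2 : ℝ) - x1) * (10000 * (M * (Real.log M) ^ 2)) := mul_le_mul_of_nonneg_left h8 hx0
    _ ≤ 10000 * (((x2 : ℝ) - x1) + 1) * M * (Real.log M) ^ 2 := by nlinarith

end Run7.h757.GP
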