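import Mathlib
import Pool.Agent.Run7.h757.GP.GIIb
import Pool.Agent.Run7.h757.GP.Str

/-!
# Project GP (helper757): the bilinear sums for the weight `1`.  One annulus, and the boundary
-/

set_option autoImplicit false

namespace Run7.h757.GP

open Finset Filter Topology MeasureTheory
open Pool.Agent.N782.GN
open Pool.Agent.N546.GN.FTaux
open Pool.Agent.N277.GN (pair_count box aW_nonneg aW_le)

theorem pt_mul {R x : ℝ} {b : ZI} (hb : b ≠ 0) (v : ZI) :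
    pt R (x + Complex.arg (b : ℂ)) v = pt (R / ‖(b : ℂ)‖) x (b * v) := by
  have hbC := zi_ne hb
  have hn : (‖(b : ℂ)‖ : ℂ) ≠ 0 := by
    exact_mod_cast (norm_ne_zero_iff.mpr hbC)
  have e2 : (‖(b : ℂ)‖ : ℂ) * Complex.exp (Complex.arg (b : ℂ) * Complex.I) = (b : ℂ) :=
    Complex.norm_mul_exp_arg_mul_I _
  unfold pt
  rw [GaussianInt.toComplex_mul]
  push_cast
  rw [add_mul, Complex.exp_add]
  calc (R : ℂ) * (Complex.exp (x * Complex.I) * Complex.exp (Complex.arg (b : ℂ) * Complex.I)) * (v : ℂ) =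
      (R / (‖(b : ℂ)‖ : ℂ)) * Complex.exp (x * Complex.I) *
        (((‖(b : ℂ)‖ : ℂ) * Complex.exp (Complex.arg (b : ℂ) * Complex.I)) * (v : ℂ)) := by
        field_simp
    _ = _ := by rw [e2]

theorem pt_per (R : ℝ) (v : ZI) (x : ℝ) : pt R (x + 2 * Real.pi) v = pt R x v := by
  unfold pt
  push_cast
  rw [add_mul, Complex.exp_add, Complex.exp_two_pi_mul_I, mul_one]

theorem int_one {δ : ℝ} (hδ : 0 < δ) (hδ1 : δ ≤ 1) (L M r₀ R : ℝ) {b : ZI} (hb : b ≠ 0) (v : ZI) :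
    ∫ x in (0 : ℝ)..(2 * Real.pi), sc δ x b * FC L M r₀ (pt R x v) =
      ∫ x in (-δ)..0, FC L M r₀ (pt (R / ‖(b : ℂ)‖) x (b * v)) := by
  have h := int_gI (δ := δ) (θ := Complex.arg (b : ℂ)) hδ hδ1 (fun x => ((FC L M r₀ (pt R x v) : ℝ) : ℂ)) (by
    intro x
    simp only [pt_per])
  have e1 : ∫ x in (0 : ℝ)..(2 * Real.pi), ((FC L M r₀ (pt R x v) : ℝ) : ℂ) *
      (gI δ (Complex.arg (b : ℂ)) x : ℂ) =
      ((∫ x in (0 : ℝ)..(2 * Real.pi), sc δ x b * FC L M r₀ (pt R x v) : ℝ) : ℂ) := by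
    rw [← intervalIntegral.integral_ofReal]
    congr 1
    funext x
    rw [sc_eq]
    push_cast
    ring
  have e2 : ∫ x in (-δ)..0, ((FC L M r₀ (pt R (x + Complex.arg (b : ℂ)) v) : ℝ) : ℂ) =
      ((∫ x in (-δ)..0, FC L M r₀ (pt (R / ‖(b : ℂ)‖) x (b * v)) : ℝ) : ℂ) := by
    rw [← intervalIntegral.integral_ofReal]
    congr 1
    funext x
    rw [pt_mul hb]
  rw [e1, e2] at h
  exact_mod_cast h

theorem BA_int {δ : ℝ} (hδ : 0 < δ) (hδ1 : δ ≤ 1) (L M r₀ R : ℝ) (S T : Finset ZI) (hS : ∀ b ∈ S, b ≠ 0)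
    (m a : ZI → ℝ) :
    ∫ x in (0 : ℝ)..(2 * Real.pi), Sx δ S m x * Ax L M r₀ R T a x =
      ∑ b ∈ S, ∑ v ∈ T, m b * a v * ∫ x in (-δ)..0, FC L M r₀ (pt (R / ‖(b : ℂ)‖) x (b * v)) := by
  have hI : ∀ b v : ZI, IntervalIntegrable (fun x => m b * a v * (sc δ x b * FC L M r₀ (pt R x v))) volume 0
      (2 * Real.pi) := by
    intro b v
    refine intble (((sc_meas δ b).mul (FC_pt_meas L M r₀ R v)).const_mul _) (K := |m b * a v|) ?_ _ _
    intro x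
    show |m b * a v * (sc δ x b * FC L M r₀ (pt R x v))| ≤ |m b * a v|
    rw [abs_mul (m b * a v)]
    have h1 := abs_sc_le δ x b
    have h2 := abs_FC_le L M r₀ (pt R x v)
    have h3 : |sc δ x b * FC L M r₀ (pt R x v)| ≤ 1 := by
      rw [abs_mul]
      nlinarith [abs_nonneg (sc δ x b), abs_nonneg (FC L M r₀ (pt R x v))]
    nlinarith [abs_nonneg (m b * a v)]
  have e1 : ∀ x, Sx δ S m x * Ax L M r₀ R T a x =
      ∑ b ∈ S, ∑ v ∈ T, m b * a v * (sc δ x b * FC L M r₀ (pt R x v)) := by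
    intro x
    unfold Sx Ax
    rw [sum_mul_sum]
    apply sum_congr rfl
    intro b _
    apply sum_congr rfl
    intro v _
    ring
  simp_rw [e1]
  rw [intervalIntegral.integral_finsetSum]
  · apply sum_congr rfl
    intro b hb
    rw [intervalIntegral.integral_finsetSum]
    · apply sum_congr rfl
      intro v _
      rw [intervalIntegral.integral_const_mul, int_one hδ hδ1 L M r₀ R (hS b hb) v]
    · intro v _
      exact hI b v
  · intro b _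
    have := IntervalIntegrable.sum (f := fun v x => m b * a v * (sc δ x b * FC L M r₀ (pt R x v))) T
      (fun v _ => hI b v)
    refine this.congr ?_
    intro x _
    rw [Finset.sum_apply]

open Classical in
/-- one annulus -/
theorem annulus {η δ L M r₀ R E : ℝ} (hη : 0 ≤ η) (hη1 : η ≤ 1 / 10) (hδη : δ * M ≤ η * L) (hL : 1 ≤ L)
    (hLM : L ≤ M) (hδη' : δ ≤ η) (hδ : 0 < δ) (hδ1 : δ ≤ 1) (S T : Finset ZI)
    (hS : ∀ b ∈ S, b ≠ 0 ∧ 1 ≤ R / ‖(b : ℂ)‖ ∧ R / ‖(b : ℂ)‖ ≤ 1 + η) (m a : ZI → ℝ) (hm : ∀ b, |m b| ≤ 1)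
    (ha : ∀ v, 0 ≤ a v) (hI : |∫ x in (0 : ℝ)..(2 * Real.pi), Sx δ S m x * Ax L M r₀ R T a x| ≤ E) :
    |∑ b ∈ S, ∑ v ∈ T, m b * a v * Fz (l1 L) M (b * v)| ≤
      E / δ + ∑ b ∈ S, ∑ v ∈ T, a v * (if Bd L M r₀ η (b * v) then 1 else 0) := by
  rw [BA_int hδ hδ1 L M r₀ R S T (fun b hb => (hS b hb).1)] at hI
  have e1 : ∑ b ∈ S, ∑ v ∈ T, m b * a v * Fz (l1 L) M (b * v) =
      1 / δ * (∑ b ∈ S, ∑ v ∈ T, m b * a v * ∫ x in (-δ)..0, FC L M r₀ (pt (R / ‖(b : ℂ)‖) x (b * v))) +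
      ∑ b ∈ S, ∑ v ∈ T, m b * a v * (Fz (l1 L) M (b * v) -
        1 / δ * ∫ x in (-δ)..0, FC L M r₀ (pt (R / ‖(b : ℂ)‖) x (b * v))) := by
    rw [mul_sum, ← sum_add_distrib]
    apply sum_congr rfl
    intro b _
    rw [mul_sum, ← sum_add_distrib]
    apply sum_congr rfl
    intro v _
    ring
  rw [e1]
  refine (abs_add_le _ _).trans (add_le_add ?_ ?_)
  · rw [abs_mul, abs_of_pos (by positivity : (0 : ℝ) < 1 / δ), one_div, div_eq_inv_mul]
    exact mul_le_mul_of_nonneg_left hI (by positivity)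
  · refine (abs_sum_le_sum_abs _ _).trans (sum_le_sum fun b hb => ?_)
    refine (abs_sum_le_sum_abs _ _).trans (sum_le_sum fun v _ => ?_)
    obtain ⟨hb0, hb1, hb2⟩ := hS b hb
    rw [abs_mul, abs_mul, abs_of_nonneg (ha v)]
    have hmeas := FC_pt_meas L M r₀ (R / ‖(b : ℂ)‖) (b * v)
    have hint : IntervalIntegrable (fun x => FC L M r₀ (pt (R / ‖(b : ℂ)‖) x (b * v))) volume (-δ) 0 :=
      intble hmeas (fun x => abs_FC_le L M r₀ _) _ _
    have key : |Fz (l1 L) M (b * v) - 1 / δ * ∫ x in (-δ)..0, FC L M r₀ (pt (R / ‖(b : ℂ)‖) x (b * v))| ≤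
        if Bd L M r₀ η (b * v) then 1 else 0 := by
      split_ifs with hB
      · have g1 : 0 ≤ Fz (l1 L) M (b * v) ∧ Fz (l1 L) M (b * v) ≤ 1 := by
          rw [Fz_eq]
          split_ifs <;> norm_num
        have g2 : 0 ≤ ∫ x in (-δ)..0, FC L M r₀ (pt (R / ‖(b : ℂ)‖) x (b * v)) :=
          intervalIntegral.integral_nonneg (by linarith) fun x _ => FC_nonneg _ _ _ _
        have g3 : ∫ x in (-δ)..0, FC L M r₀ (pt (R / ‖(b : ℂ)‖) x (b * v)) ≤ δ := by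
          have := intervalIntegral.integral_mono_on (by linarith : -δ ≤ 0) hint
            (intervalIntegrable_const (c := (1 : ℝ))) (fun x _ => FC_le L M r₀ _)
          rw [intervalIntegral.integral_const] at this
          simpa using this
        have g4 : 0 ≤ 1 / δ * ∫ x in (-δ)..0, FC L M r₀ (pt (R / ‖(b : ℂ)‖) x (b * v)) := by positivity
        have g5 : 1 / δ * ∫ x in (-δ)..0, FC L M r₀ (pt (R / ‖(b : ℂ)‖) x (b * v)) ≤ 1 := by
          rw [one_div, inv_mul_le_iff₀ hδ]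
          linarith
        rw [abs_le]
        constructor <;> linarith
      · have g1 : ∫ x in (-δ)..0, FC L M r₀ (pt (R / ‖(b : ℂ)‖) x (b * v)) =
            ∫ x in (-δ)..0, Fz (l1 L) M (b * v) := by
          apply intervalIntegral.integral_congr
          intro x hx
          rw [Set.uIcc_of_le (by linarith), Set.mem_Icc] at hx
          have hx' : |x| ≤ δ := by
            rw [abs_le]
            constructor <;> linarith
          exact FC_rot hη hη1 hδη hL hLM hδη' hb1 hb2 hx' (b * v) hB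
        rw [g1, intervalIntegral.integral_const]
        have : 1 / δ * ((0 - -δ) • Fz (l1 L) M (b * v)) = Fz (l1 L) M (b * v) := by
          rw [smul_eq_mul]
          field_simp
          ring
        rw [this, sub_self, abs_zero]
    calc |m b| * a v * |Fz (l1 L) M (b * v) -
          1 / δ * ∫ x in (-δ)..0, FC L M r₀ (pt (R / ‖(b : ℂ)‖) x (b * v))| ≤
        1 * a v * (if Bd L M r₀ η (b * v) then 1 else 0) := by
          apply mul_le_mul _ key (abs_nonneg _) (by have := ha v; linarith)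
          exact mul_le_mul_of_nonneg_right (hm b) (ha v)
      _ = _ := by rw [one_mul]

/-- the vertical strips -/
theorem vbox : ∃ C : ℝ, 0 < C ∧ ∀ (M x1 x2 K : ℝ) (S1 S2 : Finset ZI) (f : ZI → ZI → ℝ),
    3 ≤ M → x1 ≤ x2 → -(M) ≤ x1 → x2 ≤ 2 * M → 0 ≤ K → (∀ b ∈ S1, ∀ v ∈ S2, |f b v| ≤ K) →
    (∀ b ∈ S1, ∀ v ∈ S2, f b v ≠ 0 → b * v ≠ 0 ∧ x1 ≤ (((b * v).re : ℤ) : ℝ) ∧ (((b * v).re : ℤ) : ℝ) ≤ x2 ∧
      |(((b * v).im : ℤ) : ℝ)| ≤ 2 * M) →
    |∑ b ∈ S1, ∑ v ∈ S2, f b v| ≤ K * (C * ((x2 - x1) + 2) * M * (Real.log M) ^ 2) := by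
  classical
  obtain ⟨C, hC, h⟩ := str
  refine ⟨C, hC, ?_⟩
  intro M x1 x2 K S1 S2 f hM hx hx1 hx2 hK hf hf0
  set y1 : ℤ := ⌈x1⌉ - 1 with hy1
  set y2 : ℤ := ⌊x2⌋ with hy2
  have a1 : (y1 : ℝ) < x1 := by
    have := Int.ceil_lt_add_one x1
    rw [hy1]
    push_cast
    linarith
  have a2 : x1 - 1 ≤ (y1 : ℝ) := by
    have := Int.le_ceil x1
    rw [hy1]
    push_cast
    linarith
  have a3 : (y2 : ℝ) ≤ x2 := Int.floor_le x2
  have a4 : x2 < y2 + 1 := Int.lt_floor_add_one x2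
  have a5 : y1 ≤ y2 := by
    have : (y1 : ℝ) < y2 + 1 := by linarith
    have : y1 < y2 + 1 := by exact_mod_cast this
    linarith
  have hy1' : |(y1 : ℝ)| ≤ 2 * M := by
    rw [abs_le]
    constructor <;> linarith
  have hy2' : |(y2 : ℝ)| ≤ 2 * M := by
    rw [abs_le]
    constructor <;> linarith
  have hs := h M y1 y2 hM a5 hy1' hy2'
  set Z : Finset ZI := (((Ioc y1 y2) ×ˢ (Icc ⌈-(2 * M)⌉ ⌊2 * M⌋)).image (fun p : ℤ × ℤ => (⟨p.1, p.2⟩ : ZI))).filter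
    (fun z => z ≠ 0) with hZ
  have k1 := pair_count S1 S2 Z (fun z hz => (mem_filter.mp hz).2) f K hK hf (by
    intro b hb v hv hne
    obtain ⟨b0, b1, b2, b3⟩ := hf0 b hb v hv hne
    rw [hZ, mem_filter, mem_image]
    refine ⟨⟨((b * v).re, (b * v).im), ?_, rfl⟩, b0⟩
    rw [mem_product, mem_Ioc, mem_Icc]
    rw [abs_le] at b3
    refine ⟨⟨?_, Int.le_floor.mpr b2⟩, Int.ceil_le.mpr b3.1, Int.le_floor.mpr b3.2⟩
    have : (y1 : ℝ) < (((b * v).re : ℤ) : ℝ) := by linarith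
    exact_mod_cast this)
  refine k1.trans ?_
  apply mul_le_mul_of_nonneg_left _ hK
  have k2 : ∑ z ∈ Z, (dv z : ℝ) ≤ ∑ l ∈ Ioc y1 y2, ∑ m ∈ Icc ⌈-(2 * M)⌉ ⌊2 * M⌋, (dv (⟨l, m⟩ : ZI) : ℝ) := by
    rw [← sum_product']
    have e : ∑ p ∈ (Ioc y1 y2) ×ˢ (Icc ⌈-(2 * M)⌉ ⌊2 * M⌋), (dv (⟨p.1, p.2⟩ : ZI) : ℝ) =
        ∑ z ∈ ((Ioc y1 y2) ×ˢ (Icc ⌈-(2 * M)⌉ ⌊2 * M⌋)).image (fun p : ℤ × ℤ => (⟨p.1, p.2⟩ : ZI)), (dv z : ℝ) := by
      rw [sum_image]
      intro p _ q _ hpq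
      simp only [Zsqrtd.ext_iff] at hpq
      exact Prod.ext hpq.1 hpq.2
    rw [e]
    apply sum_le_sum_of_subset_of_nonneg (filter_subset _ _)
    intro z _ _
    exact Nat.cast_nonneg _
  refine k2.trans (hs.trans ?_)
  have : ((y2 : ℝ) - y1) + 1 ≤ (x2 - x1) + 2 := by linarith
  have hl : 0 ≤ (Real.log M) ^ 2 := sq_nonneg _
  gcongr

end Run7.h757.GP
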