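import Mathlib
import Pool.Agent.Run7.h757.GP.GIIc
import Pool.Agent.N546.GN.Lsb
import Pool.Agent.N954.GN.Div
import Pool.Agent.N157.GN.Mub

/-!
# Project GP (helper757): the bilinear sums for the weight `1`.  The boundary, and the sums over `v`
-/

set_option autoImplicit false

namespace Run7.h757.GP

open Finset Filter Topology MeasureTheory
open Pool.Agent.N782.GN
open Pool.Agent.N277.GN (pair_count box aW_nonneg aW_le aW_zero BX log_two_sq)

/-- the constant of the vertical strips -/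
def VX (C : ℝ) : Prop := ∀ (M x1 x2 K : ℝ) (S1 S2 : Finset ZI) (f : ZI → ZI → ℝ),
    3 ≤ M → x1 ≤ x2 → -(M) ≤ x1 → x2 ≤ 2 * M → 0 ≤ K → (∀ b ∈ S1, ∀ v ∈ S2, |f b v| ≤ K) →
    (∀ b ∈ S1, ∀ v ∈ S2, f b v ≠ 0 → b * v ≠ 0 ∧ x1 ≤ (((b * v).re : ℤ) : ℝ) ∧ (((b * v).re : ℤ) : ℝ) ≤ x2 ∧
      |(((b * v).im : ℤ) : ℝ)| ≤ 2 * M) →
    |∑ b ∈ S1, ∑ v ∈ S2, f b v| ≤ K * (C * ((x2 - x1) + 2) * M * (Real.log M) ^ 2)

theorem aW_M {M : ℝ} (hM : 3 ≤ M) (W : ℝ) {v : ZI} (hv : v ∈ bl (2 * M ^ 2)) : |aW W v| ≤ 12 * Real.log M := by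
  have hm := Pool.Agent.N157.GN.mub
  rw [abs_of_nonneg (aW_nonneg hm W v)]
  have hv0 : v ≠ 0 := ((mem_bl _ _).mp hv).1
  exact (aW_le hm W hv0).trans (log_two_sq hM hv)

open Classical in
theorem part_bd {M : ℝ} (hM : 3 ≤ M) (W : ℝ) (S1 S2 : Finset ZI) (h2 : S2 ⊆ bl (2 * M ^ 2)) (P : ZI → Prop) :
    ∀ b ∈ S1, ∀ v ∈ S2, |aW W v * (if P (b * v) then (1 : ℝ) else 0)| ≤ 12 * Real.log M := by
  intro b _ v hv
  have h := aW_M hM W (h2 hv)
  have h0 := abs_nonneg (aW W v)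
  split_ifs
  · rw [mul_one]
    exact h
  · rw [mul_zero, abs_zero]
    linarith

open Classical in
/-- the boundary -/
theorem bdry {C1 C2 : ℝ} (hC1 : 0 < C1) (hC2 : 0 < C2) (hB : BX C1) (hV : VX C2) {M L r₀ η W : ℝ} (hM : 3 ≤ M)
    (hL : 1 ≤ L) (hLM : L ≤ M) (hr : 0 ≤ r₀) (hrM : r₀ ≤ M) (hη : 0 ≤ η) (hη1 : η ≤ 1 / 10) (S1 S2 : Finset ZI)
    (h1 : S1 ⊆ bl (2 * M ^ 2)) (h2 : S2 ⊆ bl (2 * M ^ 2)) :
    ∑ b ∈ S1, ∑ v ∈ S2, aW W v * (if Bd L M r₀ η (b * v) then (1 : ℝ) else 0) ≤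
      12 * Real.log M * ((C1 + C2) * (32 * η * L * M * (Real.log M) ^ 2 + 4 * M * (Real.log M) ^ 2 +
        96 * η * L * M * Real.log M + 9 * L * Real.log M + 6 * L * r₀ * Real.log M + 12 * (M * Real.sqrt M))) := by
  have hm := Pool.Agent.N157.GN.mub
  obtain ⟨P1, hP1⟩ : ∃ P : ZI → Prop, ∀ z, P z ↔ (|(z.re : ℝ) - 1| ≤ 8 * η * L ∧ |(z.im : ℝ)| ≤ 2 * M) :=
    ⟨_, fun z => Iff.rfl⟩
  obtain ⟨P2, hP2⟩ : ∃ P : ZI → Prop, ∀ z, P z ↔ (|(z.re : ℝ) - L| ≤ 8 * η * L ∧ |(z.im : ℝ)| ≤ 2 * M) :=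
    ⟨_, fun z => Iff.rfl⟩
  obtain ⟨P3, hP3⟩ : ∃ P : ZI → Prop, ∀ z, P z ↔ (1 ≤ (z.re : ℝ) ∧ (z.re : ℝ) ≤ L ∧ M - 8 * η * M ≤ (z.im : ℝ) ∧
    (z.im : ℝ) ≤ M + 8 * η * M) := ⟨_, fun z => Iff.rfl⟩
  obtain ⟨P4, hP4⟩ : ∃ P : ZI → Prop, ∀ z, P z ↔ (1 ≤ (z.re : ℝ) ∧ (z.re : ℝ) ≤ L ∧ -M - 8 * η * M ≤ (z.im : ℝ) ∧
    (z.im : ℝ) ≤ -M + 8 * η * M) := ⟨_, fun z => Iff.rfl⟩
  obtain ⟨P5, hP5⟩ : ∃ P : ZI → Prop, ∀ z, P z ↔ (1 ≤ (z.re : ℝ) ∧ (z.re : ℝ) ≤ L ∧ -r₀ ≤ (z.im : ℝ) ∧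
    (z.im : ℝ) ≤ r₀) := ⟨_, fun z => Iff.rfl⟩
  have hlog1 : 1 ≤ Real.log M := by
    rw [Real.le_log_iff_exp_le (by linarith)]
    exact (Real.exp_one_lt_d9.trans_le (by norm_num)).le.trans hM
  have hlog0 : 0 ≤ Real.log M := by linarith
  have hK : 0 ≤ 12 * Real.log M := by linarith
  have hlog4 : Real.log (2 * (2 * M)) ≤ 3 * Real.log M := by
    have e : 2 * (2 * M) = 4 * M := by ring
    rw [e, Real.log_mul (by norm_num) (by linarith)]
    have : Real.log 4 ≤ 2 * Real.log M := by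
      have e4 : (4 : ℝ) = 2 ^ 2 := by norm_num
      rw [e4, Real.log_pow]
      have := Real.log_le_log (by norm_num : (0 : ℝ) < 2) (by linarith : (2 : ℝ) ≤ M)
      push_cast
      linarith
    linarith
  have hsq : 2 * M * Real.sqrt (2 * M) ≤ 4 * (M * Real.sqrt M) := by
    have : Real.sqrt (2 * M) ≤ 2 * Real.sqrt M := by
      rw [Real.sqrt_le_left (by positivity), mul_pow, Real.sq_sqrt (by linarith)]
      linarith
    nlinarith
  have hne : ∀ b ∈ S1, ∀ v ∈ S2, b * v ≠ 0 := by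
    intro b hb v hv
    exact mul_ne_zero ((mem_bl _ _).mp (h1 hb)).1 ((mem_bl _ _).mp (h2 hv)).1
  have hηL : 0 ≤ η * L := by positivity
  have hηL' : 8 * η * L ≤ 4 / 5 * L := by nlinarith
  have hηM : 8 * η * M ≤ 4 / 5 * M := by nlinarith
  have hηM0 : 0 ≤ η * M := by nlinarith
  -- the vertical strips
  have b1 := hV M (1 - 8 * η * L) (1 + 8 * η * L) (12 * Real.log M) S1 S2
    (fun b v => aW W v * (if P1 (b * v) then (1 : ℝ) else 0)) hM (by nlinarith) (by nlinarith) (by nlinarith) hK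
    (part_bd hM W S1 S2 h2 P1) (by
      intro b hb v hv hf
      have hP : P1 (b * v) := by
        by_contra hP
        simp only [if_neg hP, mul_zero, ne_eq, not_true_eq_false] at hf
      obtain ⟨g1, g2⟩ := (hP1 _).mp hP
      rw [abs_le] at g1
      exact ⟨hne b hb v hv, by linarith, by linarith, g2⟩)
  have b2 := hV M (L - 8 * η * L) (L + 8 * η * L) (12 * Real.log M) S1 S2
    (fun b v => aW W v * (if P2 (b * v) then (1 : ℝ) else 0)) hM (by nlinarith) (by nlinarith) (by nlinarith) hK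
    (part_bd hM W S1 S2 h2 P2) (by
      intro b hb v hv hf
      have hP : P2 (b * v) := by
        by_contra hP
        simp only [if_neg hP, mul_zero, ne_eq, not_true_eq_false] at hf
      obtain ⟨g1, g2⟩ := (hP2 _).mp hP
      rw [abs_le] at g1
      exact ⟨hne b hb v hv, by linarith, by linarith, g2⟩)
  have b3 := hB (2 * M) L (M - 8 * η * M) (M + 8 * η * M) (12 * Real.log M) (3 * Real.log M) S1 S2
    (fun b v => aW W v * (if P3 (b * v) then (1 : ℝ) else 0)) (by linarith) (by linarith) (by linarith)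
    (by nlinarith) (by rw [abs_le]; constructor <;> nlinarith) (by rw [abs_le]; constructor <;> nlinarith) hK
    (by linarith) hlog4 (part_bd hM W S1 S2 h2 P3) (by
      intro b hb v hv hf
      have hP : P3 (b * v) := by
        by_contra hP
        simp only [if_neg hP, mul_zero, ne_eq, not_true_eq_false] at hf
      obtain ⟨g1, g2, g3, g4⟩ := (hP3 _).mp hP
      exact ⟨by exact_mod_cast g1, g2, g3, g4⟩)
  have b4 := hB (2 * M) L (-M - 8 * η * M) (-M + 8 * η * M) (12 * Real.log M) (3 * Real.log M) S1 S2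
    (fun b v => aW W v * (if P4 (b * v) then (1 : ℝ) else 0)) (by linarith) (by linarith) (by linarith)
    (by nlinarith) (by rw [abs_le]; constructor <;> nlinarith) (by rw [abs_le]; constructor <;> nlinarith) hK
    (by linarith) hlog4 (part_bd hM W S1 S2 h2 P4) (by
      intro b hb v hv hf
      have hP : P4 (b * v) := by
        by_contra hP
        simp only [if_neg hP, mul_zero, ne_eq, not_true_eq_false] at hf
      obtain ⟨g1, g2, g3, g4⟩ := (hP4 _).mp hP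
      exact ⟨by exact_mod_cast g1, g2, g3, g4⟩)
  have b5 := hB (2 * M) L (-r₀) r₀ (12 * Real.log M) (3 * Real.log M) S1 S2
    (fun b v => aW W v * (if P5 (b * v) then (1 : ℝ) else 0)) (by linarith) (by linarith) (by linarith)
    (by linarith) (by rw [abs_le]; constructor <;> linarith) (by rw [abs_le]; constructor <;> linarith) hK
    (by linarith) hlog4 (part_bd hM W S1 S2 h2 P5) (by
      intro b hb v hv hf
      have hP : P5 (b * v) := by
        by_contra hP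
        simp only [if_neg hP, mul_zero, ne_eq, not_true_eq_false] at hf
      obtain ⟨g1, g2, g3, g4⟩ := (hP5 _).mp hP
      exact ⟨by exact_mod_cast g1, g2, g3, g4⟩)
  have hsum : ∑ b ∈ S1, ∑ v ∈ S2, aW W v * (if Bd L M r₀ η (b * v) then (1 : ℝ) else 0) ≤
      ∑ b ∈ S1, ∑ v ∈ S2, aW W v * (if P1 (b * v) then (1 : ℝ) else 0) +
      ∑ b ∈ S1, ∑ v ∈ S2, aW W v * (if P2 (b * v) then (1 : ℝ) else 0) +
      ∑ b ∈ S1, ∑ v ∈ S2, aW W v * (if P3 (b * v) then (1 : ℝ) else 0) +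
      ∑ b ∈ S1, ∑ v ∈ S2, aW W v * (if P4 (b * v) then (1 : ℝ) else 0) +
      ∑ b ∈ S1, ∑ v ∈ S2, aW W v * (if P5 (b * v) then (1 : ℝ) else 0) := by
    simp only [← sum_add_distrib]
    apply sum_le_sum
    intro b _
    apply sum_le_sum
    intro v _
    have ha := aW_nonneg hm W v
    simp only [← mul_add]
    apply mul_le_mul_of_nonneg_left _ ha
    have q1 : (0 : ℝ) ≤ if P1 (b * v) then (1 : ℝ) else 0 := by split_ifs <;> norm_num
    have q2 : (0 : ℝ) ≤ if P2 (b * v) then (1 : ℝ) else 0 := by split_ifs <;> norm_num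
    have q3 : (0 : ℝ) ≤ if P3 (b * v) then (1 : ℝ) else 0 := by split_ifs <;> norm_num
    have q4 : (0 : ℝ) ≤ if P4 (b * v) then (1 : ℝ) else 0 := by split_ifs <;> norm_num
    have q5 : (0 : ℝ) ≤ if P5 (b * v) then (1 : ℝ) else 0 := by split_ifs <;> norm_num
    by_cases hbd : Bd L M r₀ η (b * v)
    · rw [if_pos hbd]
      rcases hbd with h | h | h | h | h
      · have : P1 (b * v) := (hP1 _).mpr h
        rw [if_pos this] at q1 ⊢
        linarith
      · have : P2 (b * v) := (hP2 _).mpr h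
        rw [if_pos this] at q2 ⊢
        linarith
      · have : P3 (b * v) := (hP3 _).mpr h
        rw [if_pos this] at q3 ⊢
        linarith
      · have : P4 (b * v) := (hP4 _).mpr h
        rw [if_pos this] at q4 ⊢
        linarith
      · have : P5 (b * v) := (hP5 _).mpr h
        rw [if_pos this] at q5 ⊢
        linarith
    · rw [if_neg hbd]
      linarith
  have c1 := (le_abs_self _).trans b1
  have c2 := (le_abs_self _).trans b2
  have c3 := (le_abs_self _).trans b3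
  have c4 := (le_abs_self _).trans b4
  have c5 := (le_abs_self _).trans b5
  refine hsum.trans ((add_le_add (add_le_add (add_le_add (add_le_add c1 c2) c3) c4) c5).trans ?_)
  have e1 : (12 * Real.log M) * (C2 * ((1 + 8 * η * L - (1 - 8 * η * L)) + 2) * M * (Real.log M) ^ 2) +
      (12 * Real.log M) * (C2 * ((L + 8 * η * L - (L - 8 * η * L)) + 2) * M * (Real.log M) ^ 2) =
      (12 * Real.log M) * (C2 * (32 * η * L * M * (Real.log M) ^ 2 + 4 * M * (Real.log M) ^ 2)) := by ring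
  rw [e1]
  have d1 : (12 * Real.log M) * (C2 * (32 * η * L * M * (Real.log M) ^ 2 + 4 * M * (Real.log M) ^ 2)) ≤
      (12 * Real.log M) * ((C1 + C2) * (32 * η * L * M * (Real.log M) ^ 2 + 4 * M * (Real.log M) ^ 2)) := by
    apply mul_le_mul_of_nonneg_left _ hK
    apply mul_le_mul_of_nonneg_right (by linarith)
    have : 0 ≤ η * L * M * (Real.log M) ^ 2 := by positivity
    nlinarith [sq_nonneg (Real.log M)]
  have d3 : ∀ X : ℝ, 0 ≤ X → (12 * Real.log M) * (C1 * (L * (X + 1) * (3 * Real.log M) +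
      2 * M * Real.sqrt (2 * M))) ≤ (12 * Real.log M) * ((C1 + C2) * (3 * L * X * Real.log M +
        3 * L * Real.log M + 4 * (M * Real.sqrt M))) := by
    intro X hX
    apply mul_le_mul_of_nonneg_left _ hK
    have t1 : L * (X + 1) * (3 * Real.log M) + 2 * M * Real.sqrt (2 * M) ≤
        3 * L * X * Real.log M + 3 * L * Real.log M + 4 * (M * Real.sqrt M) := by linarith
    have t2 : 0 ≤ 3 * L * X * Real.log M + 3 * L * Real.log M + 4 * (M * Real.sqrt M) := by positivity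
    calc C1 * (L * (X + 1) * (3 * Real.log M) + 2 * M * Real.sqrt (2 * M)) ≤
        C1 * (3 * L * X * Real.log M + 3 * L * Real.log M + 4 * (M * Real.sqrt M)) :=
          mul_le_mul_of_nonneg_left t1 hC1.le
      _ ≤ _ := mul_le_mul_of_nonneg_right (by linarith) t2
  have r3 := d3 (16 * η * M) (by nlinarith)
  have r5 := d3 (2 * r₀) (by linarith)
  have e3 : M + 8 * η * M - (M - 8 * η * M) + 1 = 16 * η * M + 1 := by ring
  have e4 : -M + 8 * η * M - (-M - 8 * η * M) + 1 = 16 * η * M + 1 := by ring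
  have e5 : r₀ - -r₀ + 1 = 2 * r₀ + 1 := by ring
  rw [e3, e4, e5]
  have eF : 12 * Real.log M * ((C1 + C2) * (32 * η * L * M * (Real.log M) ^ 2 + 4 * M * (Real.log M) ^ 2 +
        96 * η * L * M * Real.log M + 9 * L * Real.log M + 6 * L * r₀ * Real.log M + 12 * (M * Real.sqrt M))) =
      (12 * Real.log M) * ((C1 + C2) * (32 * η * L * M * (Real.log M) ^ 2 + 4 * M * (Real.log M) ^ 2)) +
      (12 * Real.log M) * ((C1 + C2) * (3 * L * (16 * η * M) * Real.log M +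
        3 * L * Real.log M + 4 * (M * Real.sqrt M))) +
      (12 * Real.log M) * ((C1 + C2) * (3 * L * (16 * η * M) * Real.log M +
        3 * L * Real.log M + 4 * (M * Real.sqrt M))) +
      (12 * Real.log M) * ((C1 + C2) * (3 * L * (2 * r₀) * Real.log M +
        3 * L * Real.log M + 4 * (M * Real.sqrt M))) := by ring
  rw [eF]
  linarith

/-- the sums over `v` in sectors -/
theorem anorm : ∃ (C : ℝ) (D : ℕ), 0 < C ∧ ∀ (M W V δ : ℝ), 3 ≤ M → 2 ≤ W → 0 < δ → δ ≤ 1 → 1 ≤ δ * W →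
    V ≤ 2 * M ^ 2 → 0 ≤ V →
    ∫ x in (0 : ℝ)..(2 * Real.pi), (Sx δ (bl V) (aW W) x) ^ 2 ≤ (C * (Real.log M) ^ D * (δ * V)) ^ 2 := by
  obtain ⟨C1, D1, hC1, hL⟩ := Pool.Agent.N546.GN.lsb
  obtain ⟨C2, D2, hC2, hF⟩ := Pool.Agent.N546.GN.ft Pool.Agent.N546.GN.lsb
  have hm := Pool.Agent.N157.GN.mub
  refine ⟨12 * ((3 * C1 + 2) * C2 * 3 ^ (D1 + D2) + 1), D1 + D2 + 1, by positivity, ?_⟩
  intro M W V δ hM hW hδ hδ1 hδW hV hV0
  have hlog1 : 1 ≤ Real.log M := by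
    rw [Real.le_log_iff_exp_le (by linarith)]
    exact (Real.exp_one_lt_d9.trans_le (by norm_num)).le.trans hM
  set ℓ := Real.log M with hℓ
  rcases le_or_gt V W with hVW | hVW
  · have : ∀ x, (Sx δ (bl V) (aW W) x) ^ 2 = 0 := by
      intro x
      have : Sx δ (bl V) (aW W) x = 0 := by
        unfold Sx
        apply sum_eq_zero
        intro v hv
        rw [mem_bl] at hv
        rw [aW_zero W (hv.2.trans hVW), zero_mul]
      rw [this]
      ring
    simp_rw [this]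
    rw [intervalIntegral.integral_zero]
    positivity
  have hV2 : 2 ≤ V := by linarith
  have hδV : 1 ≤ δ * V := hδW.trans (mul_le_mul_of_nonneg_left hVW.le hδ.le)
  classical
  set c : ZI → ℝ := fun t => if t ∈ bl (2 * M ^ 2) then aW W t / (12 * ℓ) else 0 with hc
  have hcb : ∀ t, |c t| ≤ (dv t : ℝ) ^ 2 := by
    intro t
    rw [hc]
    simp only
    split_ifs with ht
    · have h1 := aW_M hM W ht
      have h2 : |aW W t / (12 * ℓ)| ≤ 1 := by
        rw [abs_div, abs_of_pos (by positivity : (0 : ℝ) < 12 * ℓ), div_le_one (by positivity)]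
        exact h1
      have ht0 := ((mem_bl _ _).mp ht).1
      have h3 : 1 ≤ dv t := by
        unfold dv
        rw [Nat.succ_le_iff, card_pos]
        refine ⟨1, ?_⟩
        rw [mem_filter, mem_bl]
        refine ⟨⟨one_ne_zero, ?_⟩, one_dvd t⟩
        have : nz (1 : ZI) = 1 := by
          rw [nz_eq]
          simp
        rw [this]
        exact Pool.Agent.N277.GN.one_le_nz ht0
      have h4 : (1 : ℝ) ≤ dv t := by exact_mod_cast h3
      nlinarith
    · rw [abs_zero]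
      positivity
  have hcb' : ∀ t, ‖((c t : ℝ) : ℂ)‖ ≤ (dv t : ℝ) ^ 2 := by
    intro t
    rw [Complex.norm_real, Real.norm_eq_abs]
    exact hcb t
  have hS : ∀ x, (Sx δ (bl V) (aW W) x) ^ 2 = (12 * ℓ) ^ 2 * (∑ t ∈ bl V, c t * sc δ x t) ^ 2 := by
    intro x
    rw [← mul_pow]
    congr 1
    unfold Sx
    rw [mul_sum]
    apply sum_congr rfl
    intro t ht
    have htM : t ∈ bl (2 * M ^ 2) := by
      rw [mem_bl] at ht ⊢
      exact ⟨ht.1, ht.2.trans hV⟩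
    rw [hc]
    simp only [if_pos htM]
    field_simp
  simp_rw [hS]
  rw [intervalIntegral.integral_const_mul]
  set K := ⌈1 / δ⌉₊ with hK
  have hK1 : 1 ≤ K := Nat.one_le_iff_ne_zero.mpr (Nat.ceil_pos.mpr (by positivity)).ne'
  have hKl : 1 / δ ≤ K := Nat.le_ceil _
  have hKu : (K : ℝ) ≤ 2 * V := by
    have h1 := Nat.ceil_lt_add_one (by positivity : 0 ≤ 1 / δ)
    have h2 : 1 / δ ≤ V := by
      rw [div_le_iff₀ hδ]
      linarith
    have h3 : (1 : ℝ) ≤ V := by linarith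
    linarith
  have hK0 : (0 : ℝ) < K := by exact_mod_cast hK1
  have hKi : 1 / (K : ℝ) ≤ δ := by
    rw [div_le_iff₀ hK0]
    rw [div_le_iff₀ hδ] at hKl
    linarith
  have f1 := hF V δ K c hV2 hδ hδ1 hK1 hcb
  have f2 := hL V K (fun t => ((c t : ℝ) : ℂ)) hV2 hK1 hcb'
  have hlogV : 0 ≤ Real.log V ∧ Real.log V ≤ 3 * ℓ := by
    refine ⟨Real.log_nonneg (by linarith), ?_⟩
    have : Real.log V ≤ Real.log (2 * M ^ 2) := Real.log_le_log (by linarith) hV
    rw [Real.log_mul (by norm_num) (by positivity), Real.log_pow] at this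
    have h2 : Real.log 2 ≤ ℓ := Real.log_le_log (by norm_num) (by linarith)
    push_cast at this
    linarith
  have p1 : (Real.log V) ^ D1 ≤ (3 * ℓ) ^ (D1 + D2) := by
    refine (pow_le_pow_left₀ hlogV.1 hlogV.2 D1).trans ?_
    exact pow_le_pow_right₀ (by linarith) (by omega)
  have p2 : (Real.log V) ^ D2 ≤ (3 * ℓ) ^ (D1 + D2) := by
    refine (pow_le_pow_left₀ hlogV.1 hlogV.2 D2).trans ?_
    exact pow_le_pow_right₀ (by linarith) (by omega)
  set Λ := (3 * ℓ) ^ (D1 + D2) with hΛ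
  have hΛ0 : 0 < Λ := by positivity
  have g1 : ∑ k ∈ Icc (-(K : ℤ)) K, ‖∑ t ∈ bl V, (c t : ℂ) * ph k 0 t‖ ^ 2 ≤ 3 * C1 * V ^ 2 * Λ := by
    refine f2.trans ?_
    calc C1 * (K + V) * V * Real.log V ^ D1 ≤ C1 * (2 * V + V) * V * Λ :=
          mul_le_mul (by gcongr) p1 (pow_nonneg hlogV.1 _) (by positivity)
      _ = _ := by ring
  have g2 : V * (Real.log V) ^ D2 * (1 / K + V / (K : ℝ) ^ 2) ≤ 2 * (δ * V) ^ 2 * Λ := by
    have h1 : V / (K : ℝ) ^ 2 ≤ V * δ ^ 2 := by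
      have : V / (K : ℝ) ^ 2 = V * (1 / (K : ℝ)) ^ 2 := by
        rw [div_pow, one_pow]
        ring
      rw [this]
      gcongr
    have h2 : (1 : ℝ) / K + V / (K : ℝ) ^ 2 ≤ 2 * (δ ^ 2 * V) := by
      have : δ ≤ δ ^ 2 * V := by nlinarith
      linarith
    calc V * (Real.log V) ^ D2 * (1 / K + V / (K : ℝ) ^ 2) ≤ V * Λ * (2 * (δ ^ 2 * V)) :=
          mul_le_mul (mul_le_mul_of_nonneg_left p2 (by linarith)) h2 (by positivity) (by positivity)
      _ = _ := by ring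
  have g3 : ∫ x in (0 : ℝ)..(2 * Real.pi), (∑ t ∈ bl V, c t * sc δ x t) ^ 2 ≤
      (3 * C1 + 2) * C2 * ((δ * V) ^ 2 * Λ) := by
    refine f1.trans ?_
    calc C2 * (δ ^ 2 * ∑ k ∈ Icc (-(K : ℤ)) K, ‖∑ t ∈ bl V, (c t : ℂ) * ph k 0 t‖ ^ 2 +
          V * Real.log V ^ D2 * (1 / K + V / (K : ℝ) ^ 2)) ≤
        C2 * (δ ^ 2 * (3 * C1 * V ^ 2 * Λ) + 2 * (δ * V) ^ 2 * Λ) := by gcongr
      _ = _ := by ring
  have g4 : (12 * ℓ) ^ 2 * ∫ x in (0 : ℝ)..(2 * Real.pi), (∑ t ∈ bl V, c t * sc δ x t) ^ 2 ≤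
      (12 * ℓ) ^ 2 * ((3 * C1 + 2) * C2 * ((δ * V) ^ 2 * Λ)) := mul_le_mul_of_nonneg_left g3 (by positivity)
  refine g4.trans ?_
  have hΛ2 : Λ = 3 ^ (D1 + D2) * ℓ ^ (D1 + D2) := by
    rw [hΛ, mul_pow]
  set Q := (3 * C1 + 2) * C2 * 3 ^ (D1 + D2) with hQ
  have hQ0 : 0 < Q := by positivity
  have e1 : (12 * ℓ) ^ 2 * ((3 * C1 + 2) * C2 * ((δ * V) ^ 2 * Λ)) =
      144 * (δ * V) ^ 2 * (Q * (ℓ ^ 2 * ℓ ^ (D1 + D2))) := by
    rw [hΛ2, hQ]
    ring
  have e2 : (12 * (Q + 1) * ℓ ^ (D1 + D2 + 1) * (δ * V)) ^ 2 =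
      144 * (δ * V) ^ 2 * ((Q + 1) ^ 2 * (ℓ ^ 2 * (ℓ ^ (D1 + D2) * ℓ ^ (D1 + D2)))) := by ring
  rw [e1, e2]
  have hp : 1 ≤ ℓ ^ (D1 + D2) := one_le_pow₀ hlog1
  apply mul_le_mul_of_nonneg_left _ (by positivity)
  have h1 : Q ≤ (Q + 1) ^ 2 := by nlinarith
  have h2 : ℓ ^ 2 * ℓ ^ (D1 + D2) ≤ ℓ ^ 2 * (ℓ ^ (D1 + D2) * ℓ ^ (D1 + D2)) := by
    apply mul_le_mul_of_nonneg_left _ (by positivity)
    nlinarith
  exact mul_le_mul h1 h2 (by positivity) (by positivity)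

end Run7.h757.GP
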