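import Mathlib
import Pool.Agent.Run7.h757.GP.GIId
import Pool.Agent.N782.GN.All1

/-!
# Project GP (helper757): the bilinear sums for the weight `1`.  Assembly
-/

set_option autoImplicit false

namespace Run7.h757.GP

open Finset Filter Topology MeasureTheory
open Pool.Agent.N782.GN
open Pool.Agent.N277.GN (box BX exists_big Big SI SI_trivial)

theorem sum_ann (s : Finset ZI) (y : ℕ → ℝ) (hy : Monotone y) (f : ZI → ℝ) (n : ℕ) :
    ∑ b ∈ s.filter (fun b => y 0 < nz b ∧ nz b ≤ y n), f b =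
      ∑ i ∈ range n, ∑ b ∈ s.filter (fun b => y i < nz b ∧ nz b ≤ y (i + 1)), f b := by
  induction n with
  | zero =>
    rw [range_zero, sum_empty]
    apply sum_eq_zero
    intro b hb
    rw [mem_filter] at hb
    linarith [hb.2.1, hb.2.2]
  | succ n ih =>
    rw [sum_range_succ, ← ih, sum_filter, sum_filter, sum_filter, ← sum_add_distrib]
    apply sum_congr rfl
    intro b _
    have h0 : y 0 ≤ y n := hy (Nat.zero_le n)
    have h1 : y n ≤ y (n + 1) := hy (Nat.le_succ n)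
    by_cases c1 : nz b ≤ y n
    · by_cases c2 : y 0 < nz b
      · rw [if_pos ⟨c2, by linarith⟩, if_pos ⟨c2, c1⟩, if_neg (fun h => by linarith [h.1])]
        ring
      · rw [if_neg (fun h => c2 h.1), if_neg (fun h => c2 h.1), if_neg (fun h => by linarith [h.1])]
        ring
    · rw [not_le] at c1
      by_cases c2 : nz b ≤ y (n + 1)
      · rw [if_pos ⟨by linarith, c2⟩, if_neg (fun h => by linarith [h.2]), if_pos ⟨c1, c2⟩]
        ring
      · rw [if_neg (fun h => c2 h.2), if_neg (fun h => by linarith [h.2]), if_neg (fun h => c2 h.2)]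
        ring

open Classical in
theorem cls_one (X : ℝ) : cls 1 0 X = bl X := by
  unfold cls
  apply filter_true_of_mem
  intro t _
  simp

theorem exp_le_one_add {η : ℝ} (h0 : 0 ≤ η) (h1 : η ≤ 1) : Real.exp (η / 2) ≤ 1 + η := by
  have h2 := Real.add_one_le_exp (-(η / 2))
  have h3 : Real.exp (η / 2) * Real.exp (-(η / 2)) = 1 := by
    rw [← Real.exp_add]
    simp
  have h4 := Real.exp_pos (η / 2)
  nlinarith

/-- the number of the annuli -/
theorem ann_count {M ℓ η Y : ℝ} (hM : 3 ≤ M) (hℓ : ℓ = Real.log M) (hη : 0 < η) (hη1 : η ≤ 1) (hY : 1 ≤ Y) :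
    2 * M ^ 2 ≤ Y * ((1 + η) ^ 2) ^ ⌈3 * ℓ / η⌉₊ := by
  set n := ⌈3 * ℓ / η⌉₊ with hn
  have h1 : 3 * ℓ / η ≤ n := Nat.le_ceil _
  have h2 : 3 * ℓ ≤ n * η := by rwa [div_le_iff₀ hη] at h1
  have h3 : Real.exp (3 * ℓ) ≤ ((1 + η) ^ 2) ^ n := by
    calc Real.exp (3 * ℓ) ≤ Real.exp (n * η) := Real.exp_le_exp.mpr h2
      _ = ((Real.exp (η / 2)) ^ 2) ^ n := by
          rw [← Real.exp_nat_mul, ← Real.exp_nat_mul]
          congr 1
          push_cast
          ring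
      _ ≤ ((1 + η) ^ 2) ^ n := by
          have := exp_le_one_add hη.le hη1
          have h0 := (Real.exp_pos (η / 2)).le
          gcongr
  have h4 : Real.exp (3 * ℓ) = M ^ 3 := by
    have : Real.exp (3 * ℓ) = (Real.exp ℓ) ^ 3 := by
      rw [← Real.exp_nat_mul]
      congr 1
    rw [this, hℓ, Real.exp_log (by linarith)]
  rw [h4] at h3
  have h5 : 2 * M ^ 2 ≤ M ^ 3 := by nlinarith [sq_nonneg M]
  have h6 : 0 ≤ ((1 + η) ^ 2) ^ n := by positivity
  nlinarith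

/-- the sums over `b` in one annulus -/
theorem bnorm {ε C4 : ℝ} {E : ℕ} (hε : 0 < ε) (hC4 : 0 < C4)
    (hMB : ∀ (V δ Y1 Y2 : ℝ) (q : ℕ) (r : ZI), 2 ≤ V →
      V ^ (-(1 / 2) + ε / 4 : ℝ) ≤ δ → δ ≤ 1 → 0 ≤ Y1 → Y1 ≤ Y2 → Y2 ≤ V → 1 ≤ q → (q : ℝ) ≤ (Real.log V) ^ 0 →
      IsCoprime r ((q : ℕ) : ZI) →
      ∫ x in (0 : ℝ)..(2 * Real.pi), (∑ t ∈ (cls q r Y2).filter (fun t => Y1 < nz t), mu t * sc δ x t) ^ 2 ≤
        C4 * δ ^ 2 * V ^ 2 / (Real.log V) ^ (2 * E))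
    {M L V δ Y1 ℓ : ℝ} (hM : 8 ≤ M) (hℓ : ℓ = Real.log M) (hL0 : 0 < L) (hLM : L ≤ M)
    (hV : (M / L) ^ 2 * M ^ (3 * ε) ≤ V) (hV2 : V ≤ 8 * M ^ 2) (hbig : 1 ≤ δ * (M / L) * M ^ (3 * ε / 4))
    (hδ0 : 0 < δ) (hδ1 : δ ≤ 1) (hY1 : 0 ≤ Y1) (hY2 : Y1 ≤ 2 * M ^ 2) (hY3 : Y1 ≤ V) (h2M : 2 ≤ M ^ (3 * ε)) :
    ∫ x in (0 : ℝ)..(2 * Real.pi), (Sx δ ((bl (2 * M ^ 2)).filter (fun b => Y1 < nz b ∧ nz b ≤ V)) mu x) ^ 2 ≤
      ((C4 + 1) / ε ^ E * (δ * V) / ℓ ^ E) ^ 2 := by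
  have hM0 : 0 < M := by linarith
  have hML : 1 ≤ M / L := by
    rw [le_div_iff₀ hL0]
    linarith
  have hV3 : M ^ (3 * ε) ≤ V := by
    refine le_trans ?_ hV
    have : 1 ≤ (M / L) ^ 2 := one_le_pow₀ hML
    have := Real.rpow_pos_of_pos hM0 (3 * ε)
    nlinarith
  have hV4 : 2 ≤ V := h2M.trans hV3
  have hV0 : 0 < V := by linarith
  have hℓ0 : 0 < ℓ := by
    rw [hℓ]
    exact Real.log_pos (by linarith)
  have hlogV : ε * ℓ ≤ Real.log V := by
    have := Real.log_le_log (Real.rpow_pos_of_pos hM0 _) hV3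
    rw [Real.log_rpow hM0, ← hℓ] at this
    nlinarith
  have hcond : V ^ (-(1 / 2) + ε / 4 : ℝ) ≤ δ := by
    have e1 : V ^ (-(1 / 2) + ε / 4 : ℝ) = V ^ (-(1 / 2) : ℝ) * V ^ (ε / 4 : ℝ) := Real.rpow_add hV0 _ _
    have h1 : V ^ (-(1 / 2) : ℝ) ≤ (L / M) * M ^ (-(3 * ε / 2)) := by
      have a1 : V ^ (-(1 / 2) : ℝ) ≤ ((M / L) ^ 2 * M ^ (3 * ε)) ^ (-(1 / 2) : ℝ) :=
        Real.rpow_le_rpow_of_nonpos (by positivity) hV (by norm_num)
      refine a1.trans (le_of_eq ?_)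
      rw [Real.mul_rpow (by positivity) (by positivity), ← Real.rpow_natCast (M / L) 2,
        ← Real.rpow_mul (by positivity), ← Real.rpow_mul hM0.le]
      congr 1
      · norm_num
        rw [Real.rpow_neg_one, inv_div]
      · congr 1
        ring
    have h2 : V ^ (ε / 4 : ℝ) ≤ M ^ (3 * ε / 4) := by
      have a1 : V ≤ M ^ (3 : ℝ) := by
        have : M ^ (3 : ℝ) = M ^ 3 := by
          rw [← Real.rpow_natCast]
          norm_num
        rw [this]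
        nlinarith [sq_nonneg M]
      have a2 := Real.rpow_le_rpow hV0.le a1 (by linarith : 0 ≤ ε / 4)
      rw [← Real.rpow_mul hM0.le] at a2
      have e : (3 : ℝ) * (ε / 4) = 3 * ε / 4 := by ring
      rwa [e] at a2
    rw [e1]
    have h3 : V ^ (-(1 / 2) : ℝ) * V ^ (ε / 4 : ℝ) ≤ ((L / M) * M ^ (-(3 * ε / 2))) * M ^ (3 * ε / 4) := by
      have := Real.rpow_nonneg hV0.le (ε / 4)
      gcongr
    refine h3.trans ?_
    have e2 : ((L / M) * M ^ (-(3 * ε / 2))) * M ^ (3 * ε / 4) = (L / M) * (M ^ (3 * ε / 4))⁻¹ := by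
      rw [mul_assoc, ← Real.rpow_add hM0, ← Real.rpow_neg hM0.le]
      congr 2
      ring
    rw [e2]
    have hp : 0 < M ^ (3 * ε / 4) := Real.rpow_pos_of_pos hM0 _
    rw [← div_eq_mul_inv, div_le_iff₀ hp, div_le_iff₀ hM0]
    have : 1 * L ≤ δ * (M / L) * M ^ (3 * ε / 4) * L := mul_le_mul_of_nonneg_right hbig hL0.le
    have e3 : δ * (M / L) * M ^ (3 * ε / 4) * L = δ * M ^ (3 * ε / 4) * M := by
      field_simp
    linarith
  have key := hMB V δ Y1 (min V (2 * M ^ 2)) 1 0 hV4 hcond hδ1 hY1 (le_min hY3 hY2) (min_le_left _ _) le_rfl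
    (by simp) (by rw [Nat.cast_one]; exact isCoprime_one_right)
  have eset : (cls 1 0 (min V (2 * M ^ 2))).filter (fun t => Y1 < nz t) =
      (bl (2 * M ^ 2)).filter (fun b => Y1 < nz b ∧ nz b ≤ V) := by
    rw [cls_one]
    ext t
    simp only [mem_filter, mem_bl, le_min_iff]
    tauto
  rw [eset] at key
  unfold Sx
  refine key.trans ?_
  have h1 : (ε * ℓ) ^ (2 * E) ≤ (Real.log V) ^ (2 * E) := pow_le_pow_left₀ (by positivity) hlogV _
  have h2 : C4 * δ ^ 2 * V ^ 2 / (Real.log V) ^ (2 * E) ≤ (C4 + 1) ^ 2 * δ ^ 2 * V ^ 2 / (ε * ℓ) ^ (2 * E) := by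
    have : C4 ≤ (C4 + 1) ^ 2 := by nlinarith
    gcongr
  refine h2.trans (le_of_eq ?_)
  rw [mul_pow ε ℓ, pow_mul', pow_mul']
  field_simp

open Classical in
/-- the estimate for large `M` -/
theorem gii_large {ε C1 C2 C3 C4 : ℝ} {A D : ℕ} (hε : 0 < ε) (hC1 : 0 < C1) (hC2 : 0 < C2) (hC3 : 0 < C3)
    (hC4 : 0 < C4) (hB : BX C1) (hVX : VX C2)
    (hAN : ∀ (M W V δ : ℝ), 3 ≤ M → 2 ≤ W → 0 < δ → δ ≤ 1 → 1 ≤ δ * W →
      V ≤ 2 * M ^ 2 → 0 ≤ V →
      ∫ x in (0 : ℝ)..(2 * Real.pi), (Sx δ (bl V) (aW W) x) ^ 2 ≤ (C3 * (Real.log M) ^ D * (δ * V)) ^ 2)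
    (hMB : ∀ (V δ Y1 Y2 : ℝ) (q : ℕ) (r : ZI), 2 ≤ V →
      V ^ (-(1 / 2) + ε / 4 : ℝ) ≤ δ → δ ≤ 1 → 0 ≤ Y1 → Y1 ≤ Y2 → Y2 ≤ V → 1 ≤ q → (q : ℝ) ≤ (Real.log V) ^ 0 →
      IsCoprime r ((q : ℕ) : ZI) →
      ∫ x in (0 : ℝ)..(2 * Real.pi), (∑ t ∈ (cls q r Y2).filter (fun t => Y1 < nz t), mu t * sc δ x t) ^ 2 ≤
        C4 * δ ^ 2 * V ^ 2 / (Real.log V) ^ (2 * (D + 3 * A + 10)))
    {M L Y W : ℝ} (hbig : Big (3 * ε / 4) A M) (hL1 : M ^ (1 / 2 + ε) ≤ L) (hL2 : L ≤ M ^ (1 - ε))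
    (hY : (M / L) ^ 2 * M ^ (3 * ε) ≤ Y) (hW : M / L * M ^ (3 * ε) ≤ W) :
    |SI M Y W (l1 L)| ≤ (1908 * (C1 + C2) + 64 * (C4 + 1) / ε ^ (D + 3 * A + 10) * C3) *
      (L * M / (Real.log M) ^ A) := by
  obtain ⟨hM3, hl, hp⟩ := hbig
  set ℓ := Real.log M with hℓ
  have hM0 : 0 < M := by linarith
  have hM8 : 8 ≤ M := by
    have := Real.add_one_le_exp ℓ
    rw [hℓ, Real.exp_log hM0] at this
    linarith
  have hℓ1 : 1 ≤ ℓ := by linarith
  have hℓ0 : 0 < ℓ := by linarith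
  have hLM : L ≤ M := by
    refine hL2.trans ?_
    calc M ^ (1 - ε) ≤ M ^ (1 : ℝ) := Real.rpow_le_rpow_of_exponent_le (by linarith) (by linarith)
      _ = M := Real.rpow_one M
  have hp4 : 4 * ℓ ^ (A + 4) ≤ M ^ (3 * ε / 4) := by
    refine le_trans ?_ hp
    calc 4 * ℓ ^ (A + 4) ≤ ℓ * ℓ ^ (A + 4) := by
          apply mul_le_mul_of_nonneg_right (by linarith) (by positivity)
      _ = ℓ ^ (A + 5) := by ring
      _ ≤ ℓ ^ (2 * A + 6) := pow_le_pow_right₀ hℓ1 (by omega)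
  have hpε : M ^ (3 * ε / 4) ≤ M ^ ε := Real.rpow_le_rpow_of_exponent_le (by linarith) (by linarith)
  have hpow1 : 1 ≤ ℓ ^ (A + 4) := one_le_pow₀ hℓ1
  have hLs : Real.sqrt M * (4 * ℓ ^ (A + 4)) ≤ L := by
    refine le_trans ?_ hL1
    rw [Real.rpow_add hM0, Real.sqrt_eq_rpow]
    exact mul_le_mul_of_nonneg_left (hp4.trans hpε) (by positivity)
  have hs1 : 1 ≤ Real.sqrt M := by
    rw [Real.one_le_sqrt]
    linarith
  have hL4 : 4 * ℓ ^ (A + 4) ≤ L := by nlinarith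
  have hL0 : 1 ≤ L := by linarith
  have hML : M ^ ε ≤ M / L := by
    rw [le_div_iff₀ (by linarith)]
    calc M ^ ε * L ≤ M ^ ε * M ^ (1 - ε) := mul_le_mul_of_nonneg_left hL2 (by positivity)
      _ = M := by
          rw [← Real.rpow_add hM0]
          norm_num
  have hML1 : 1 ≤ M / L := by
    rw [le_div_iff₀ (by linarith)]
    linarith
  set P := ℓ ^ (A + 4) with hP
  have hP0 : 0 < P := by positivity
  set η := 1 / P with hη
  have hη0 : 0 < η := by positivity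
  have hη1 : η ≤ 1 / 10 := by
    rw [hη]
    apply one_div_le_one_div_of_le (by norm_num)
    have : ℓ ^ 1 ≤ ℓ ^ (A + 4) := pow_le_pow_right₀ hℓ1 (by omega)
    rw [pow_one] at this
    linarith
  set δ := L / M * η with hδ
  have hLMle : L / M ≤ 1 := by
    rw [div_le_one hM0]
    exact hLM
  have hδ0 : 0 < δ := by positivity
  have hδη : δ ≤ η := by
    rw [hδ]
    nlinarith
  have hδ1 : δ ≤ 1 := by linarith
  have hδηM : δ * M ≤ η * L := by
    rw [hδ]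
    apply le_of_eq
    field_simp
  set r₀ := M / P with hr₀
  have hr0 : 0 < r₀ := by positivity
  have hrM : r₀ ≤ M := by
    rw [hr₀, div_le_iff₀ hP0]
    nlinarith
  set δ₂ := 4 * L / r₀ with hδ₂
  have hδ₂e : δ₂ = 4 * P * (L / M) := by
    rw [hδ₂, hr₀]
    field_simp
  have hδ₂0 : 0 < δ₂ := by positivity
  have hLMi : L / M ≤ 1 / M ^ ε := by
    rw [div_le_div_iff₀ hM0 (by positivity)]
    rw [le_div_iff₀ (by linarith)] at hML
    linarith
  have hδ₂1 : δ₂ ≤ 1 := by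
    rw [hδ₂e]
    have h1 : 4 * P * (L / M) ≤ 4 * P * (1 / M ^ ε) := mul_le_mul_of_nonneg_left hLMi (by positivity)
    have h2 : 4 * P * (1 / M ^ ε) ≤ 1 := by
      rw [mul_one_div, div_le_one (by positivity)]
      exact hp4.trans hpε
    linarith
  have hM3ε : M ^ (3 * ε / 4) ≤ M ^ (3 * ε) := Real.rpow_le_rpow_of_exponent_le (by linarith) (by linarith)
  have h2M : 2 ≤ M ^ (3 * ε) := by linarith
  have hW2 : 2 ≤ W := by
    refine le_trans ?_ hW
    nlinarith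
  have hδW : 1 ≤ δ₂ * W := by
    have h1 : δ₂ * (M / L * M ^ (3 * ε)) ≤ δ₂ * W := mul_le_mul_of_nonneg_left hW hδ₂0.le
    have h2 : δ₂ * (M / L * M ^ (3 * ε)) = 4 * P * M ^ (3 * ε) := by
      rw [hδ₂e]
      field_simp
    nlinarith
  have hY1 : 1 ≤ Y := by
    refine le_trans ?_ hY
    have : 1 ≤ (M / L) ^ 2 := one_le_pow₀ hML1
    nlinarith
  have hδbig : 1 ≤ δ * (M / L) * M ^ (3 * ε / 4) := by
    have e : δ * (M / L) = η := by
      rw [hδ]
      field_simp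
    rw [e, hη, one_div, inv_mul_eq_div, le_div_iff₀ hP0]
    linarith
  set n := ⌈3 * ℓ / η⌉₊ with hn
  have hn4 : (n : ℝ) ≤ 4 * (ℓ * P) := by
    have h1 := (Nat.ceil_lt_add_one (by positivity : 0 ≤ 3 * ℓ / η)).le
    have e : 3 * ℓ / η = 3 * (ℓ * P) := by
      rw [hη]
      field_simp
    rw [e] at h1
    have : 1 ≤ ℓ * P := by nlinarith
    rw [hn, e]
    linarith
  set y : ℕ → ℝ := fun i => Y * ((1 + η) ^ 2) ^ i with hy
  have hk1 : 1 ≤ (1 + η) ^ 2 := by nlinarith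
  have hmono : Monotone y := by
    intro i j hij
    simp only [hy]
    have := pow_le_pow_right₀ hk1 hij
    nlinarith
  have hy0 : y 0 = Y := by simp [hy]
  have hyn : 2 * M ^ 2 ≤ y n := ann_count (by linarith) hℓ hη0 (by linarith) hY1
  set f : ZI → ℝ := fun b => ∑ v ∈ bl (2 * M ^ 2), mu b * aW W v * Fz (l1 L) M (b * v) with hf
  have hSI : SI M Y W (l1 L) = ∑ i ∈ range n, ∑ b ∈ (bl (2 * M ^ 2)).filter (fun b => y i < nz b ∧ nz b ≤ y (i + 1)),
      f b := by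
    rw [← sum_ann (bl (2 * M ^ 2)) y hmono f n, hy0]
    unfold SI
    apply sum_congr
    · ext b
      simp only [mem_filter, mem_bl]
      constructor
      · rintro ⟨⟨g1, g2⟩, g3⟩
        exact ⟨⟨g1, g2⟩, g3, g2.trans hyn⟩
      · rintro ⟨⟨g1, g2⟩, g3, -⟩
        exact ⟨⟨g1, g2⟩, g3⟩
    · intro b _
      rfl
  set Emain := 16 * ((C4 + 1) / ε ^ (D + 3 * A + 10)) * C3 * (L * M / ℓ ^ (2 * A + 6)) with hEmain
  have hEmain0 : 0 ≤ Emain := by positivity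
  have hann : ∀ i ∈ range n, |∑ b ∈ (bl (2 * M ^ 2)).filter (fun b => y i < nz b ∧ nz b ≤ y (i + 1)), f b| ≤
      Emain + ∑ b ∈ (bl (2 * M ^ 2)).filter (fun b => y i < nz b ∧ nz b ≤ y (i + 1)), ∑ v ∈ bl (2 * M ^ 2),
        aW W v * (if Bd L M r₀ η (b * v) then 1 else 0) := by
    intro i _
    have hyi : 1 ≤ y i := by
      have := hmono (Nat.zero_le i)
      rw [hy0] at this
      linarith
    have hyi1 : y i ≤ y (i + 1) := hmono (Nat.le_succ i)
    have hyi2 : y (i + 1) = (1 + η) ^ 2 * y i := by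
      simp only [hy]
      ring
    rcases le_or_gt (2 * M ^ 2) (y i) with hc | hc
    · have hemp : (bl (2 * M ^ 2)).filter (fun b => y i < nz b ∧ nz b ≤ y (i + 1)) = ∅ := by
        rw [filter_eq_empty_iff]
        intro b hb h
        rw [mem_bl] at hb
        linarith [h.1, hb.2]
      rw [hemp, sum_empty, sum_empty, abs_zero]
      linarith
    · set V := y (i + 1) with hVdef
      have hV1 : 1 ≤ V := by linarith
      have hV0 : 0 < V := by linarith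
      have hVY : (M / L) ^ 2 * M ^ (3 * ε) ≤ V := by
        refine hY.trans ?_
        rw [← hy0]
        exact hmono (Nat.zero_le _)
      have hV8 : V ≤ 8 * M ^ 2 := by
        rw [hyi2]
        have : (1 + η) ^ 2 ≤ 4 := by nlinarith
        nlinarith [sq_nonneg M]
      set R := Real.sqrt V with hR
      have hR1 : 1 ≤ R := by
        rw [hR, Real.one_le_sqrt]
        exact hV1
      have hR2 : R ^ 2 = V := Real.sq_sqrt hV0.le
      have hbn := bnorm hε hC4 hMB hM8 hℓ (by linarith) hLM hVY hV8 hδbig hδ0 hδ1 (by linarith : 0 ≤ y i) hc.le hyi1 h2M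
      have han1 := Ax_sq (L := L) (M := M) (r₀ := r₀) hR1 hr0 (by linarith) hLM (aW W)
        (Pool.Agent.N277.GN.aW_nonneg Pool.Agent.N157.GN.mub W)
      have hV'le : 2 * M ^ 2 / R ^ 2 ≤ 2 * M ^ 2 := by
        rw [hR2]
        exact div_le_self (by positivity) hV1
      have han2 := hAN M W (2 * M ^ 2 / R ^ 2) δ₂ hM3 hW2 hδ₂0 hδ₂1 hδW hV'le (by positivity)
      have han : ∫ x in (0 : ℝ)..(2 * Real.pi), (Ax L M r₀ R (bl (2 * M ^ 2)) (aW W) x) ^ 2 ≤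
          (2 * (C3 * ℓ ^ D * (δ₂ * (2 * M ^ 2 / R ^ 2)))) ^ 2 := by
        rw [mul_pow]
        norm_num
        linarith
      have hE1 : 0 < (C4 + 1) / ε ^ (D + 3 * A + 10) * (δ * V) / ℓ ^ (D + 3 * A + 10) := by positivity
      have hE2 : 0 < 2 * (C3 * ℓ ^ D * (δ₂ * (2 * M ^ 2 / R ^ 2))) := by positivity
      have hI := cs_int (Sx_meas δ _ mu) (Ax_meas L M r₀ R (bl (2 * M ^ 2)) (aW W)) (Sx_bdd δ _ mu)
        (Ax_bdd L M r₀ R (bl (2 * M ^ 2)) (aW W)) hE1 hE2 hbn han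
      have hS : ∀ b ∈ (bl (2 * M ^ 2)).filter (fun b => y i < nz b ∧ nz b ≤ V),
          b ≠ 0 ∧ 1 ≤ R / ‖(b : ℂ)‖ ∧ R / ‖(b : ℂ)‖ ≤ 1 + η := by
        intro b hb
        rw [mem_filter, mem_bl] at hb
        obtain ⟨⟨g1, -⟩, g2, g3⟩ := hb
        have hnb : ‖(b : ℂ)‖ = Real.sqrt (nz b) := by
          rw [← norm_zi, Real.sqrt_sq (norm_nonneg _)]
        have hnb0 : 0 < nz b := by linarith
        have hs0 : 0 < Real.sqrt (nz b) := Real.sqrt_pos.mpr hnb0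
        refine ⟨g1, ?_, ?_⟩
        · rw [hnb, one_le_div hs0]
          exact Real.sqrt_le_sqrt g3
        · rw [hnb, div_le_iff₀ hs0, hR]
          apply Real.sqrt_le_iff.mpr
          refine ⟨by positivity, ?_⟩
          rw [mul_pow, Real.sq_sqrt hnb0.le, hyi2]
          exact mul_le_mul_of_nonneg_left g2.le (by positivity)
      have hfin := annulus hη0.le hη1 hδηM hL0 hLM hδη hδ0 hδ1 _ (bl (2 * M ^ 2)) hS mu (aW W) abs_mu_le
        (Pool.Agent.N277.GN.aW_nonneg Pool.Agent.N157.GN.mub W) hI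
      refine hfin.trans (add_le_add (le_of_eq ?_) le_rfl)
      rw [hEmain, hR2, hδ₂e]
      have e1 : ℓ ^ (D + 3 * A + 10) = ℓ ^ D * P * ℓ ^ (2 * A + 6) := by
        rw [hP, ← pow_add, ← pow_add]
        congr 1
        ring
      rw [e1]
      field_simp
      ring
  have htot : |SI M Y W (l1 L)| ≤ n * Emain + ∑ b ∈ (bl (2 * M ^ 2)).filter (fun b => y 0 < nz b ∧ nz b ≤ y n),
      ∑ v ∈ bl (2 * M ^ 2), aW W v * (if Bd L M r₀ η (b * v) then 1 else 0) := by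
    rw [hSI]
    refine (abs_sum_le_sum_abs _ _).trans ((sum_le_sum hann).trans (le_of_eq ?_))
    rw [sum_add_distrib, sum_const, card_range, nsmul_eq_mul,
      sum_ann (bl (2 * M ^ 2)) y hmono (fun b => ∑ v ∈ bl (2 * M ^ 2), aW W v *
        (if Bd L M r₀ η (b * v) then 1 else 0)) n]
  have hbd := bdry hC1 hC2 hB hVX hM3 hL0 hLM hr0.le hrM hη0.le hη1 (W := W)
    ((bl (2 * M ^ 2)).filter (fun b => y 0 < nz b ∧ nz b ≤ y n)) (bl (2 * M ^ 2)) (filter_subset _ _) (Subset.refl _)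
  rw [← hℓ] at hbd
  have hmain : n * Emain ≤ 64 * (C4 + 1) / ε ^ (D + 3 * A + 10) * C3 * (L * M / ℓ ^ A) := by
    have h1 : n * Emain ≤ 4 * (ℓ * P) * Emain := mul_le_mul_of_nonneg_right hn4 hEmain0
    refine h1.trans ?_
    have e2 : 4 * (ℓ * P) * Emain = 64 * (C4 + 1) / ε ^ (D + 3 * A + 10) * C3 * (L * M / ℓ ^ (A + 1)) := by
      rw [hEmain, hP]
      have : ℓ ^ (2 * A + 6) = ℓ ^ (A + 4) * ℓ * ℓ ^ (A + 1) := by
        rw [mul_assoc, ← pow_succ', ← pow_add]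
        congr 1
        ring
      rw [this]
      field_simp
      ring
    rw [e2]
    have h3 : L * M / ℓ ^ (A + 1) ≤ L * M / ℓ ^ A := by
      apply div_le_div_of_nonneg_left (by positivity) (by positivity)
      exact pow_le_pow_right₀ hℓ1 (by omega)
    exact mul_le_mul_of_nonneg_left h3 (by positivity)
  have hb2 : 12 * ℓ * ((C1 + C2) * (32 * η * L * M * ℓ ^ 2 + 4 * M * ℓ ^ 2 +
        96 * η * L * M * ℓ + 9 * L * ℓ + 6 * L * r₀ * ℓ + 12 * (M * Real.sqrt M))) ≤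
      1908 * (C1 + C2) * (L * M / ℓ ^ A) := by
    set T := L * M / ℓ ^ (A + 1) with hT
    have hT0 : 0 < T := by positivity
    have hpA : ℓ ^ (A + 4) = ℓ ^ (A + 1) * ℓ ^ 3 := by ring
    have hq : 1 ≤ ℓ ^ 3 := one_le_pow₀ hℓ1
    have hq1 : 1 ≤ ℓ ^ (A + 1) := one_le_pow₀ hℓ1
    have hq2 : ℓ ≤ ℓ ^ 3 := by
      calc ℓ = ℓ ^ 1 := (pow_one ℓ).symm
        _ ≤ ℓ ^ 3 := pow_le_pow_right₀ hℓ1 (by omega)
    have hq3 : ℓ ^ 2 ≤ ℓ ^ 3 := pow_le_pow_right₀ hℓ1 (by omega)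
    have hηT : η * L * M * ℓ ^ 3 = T := by
      rw [hη, hT, hP, hpA]
      field_simp
    have t1 : 32 * η * L * M * ℓ ^ 2 ≤ 32 * T := by
      rw [← hηT]
      have : η * L * M * ℓ ^ 2 ≤ η * L * M * ℓ ^ 3 := mul_le_mul_of_nonneg_left hq3 (by positivity)
      nlinarith
    have t3 : 96 * η * L * M * ℓ ≤ 96 * T := by
      rw [← hηT]
      have : η * L * M * ℓ ≤ η * L * M * ℓ ^ 3 := mul_le_mul_of_nonneg_left hq2 (by positivity)
      nlinarith
    have t5 : 6 * L * r₀ * ℓ ≤ 6 * T := by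
      have e : L * r₀ = η * L * M := by
        rw [hη, hr₀]
        ring
      have : L * r₀ * ℓ ≤ T := by
        rw [e, ← hηT]
        exact mul_le_mul_of_nonneg_left hq2 (by positivity)
      nlinarith
    have hLp : ℓ ^ (A + 1) * ℓ ^ 3 ≤ L := by
      rw [← hpA]
      have : 0 < ℓ ^ (A + 4) := by positivity
      linarith
    have t2 : 4 * M * ℓ ^ 2 ≤ 4 * T := by
      have : M * ℓ ^ 2 ≤ T := by
        rw [hT, le_div_iff₀ (by positivity)]
        calc M * ℓ ^ 2 * ℓ ^ (A + 1) ≤ M * ℓ ^ 3 * ℓ ^ (A + 1) := by gcongr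
          _ = M * (ℓ ^ (A + 1) * ℓ ^ 3) := by ring
          _ ≤ M * L := mul_le_mul_of_nonneg_left hLp hM0.le
          _ = L * M := by ring
      linarith
    have t4 : 9 * L * ℓ ≤ 9 * T := by
      have : L * ℓ ≤ T := by
        rw [hT, le_div_iff₀ (by positivity)]
        calc L * ℓ * ℓ ^ (A + 1) ≤ L * ℓ ^ 3 * ℓ ^ (A + 1) := by gcongr
          _ = L * (ℓ ^ (A + 1) * ℓ ^ 3) := by ring
          _ ≤ L * L := mul_le_mul_of_nonneg_left hLp (by linarith)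
          _ ≤ L * M := mul_le_mul_of_nonneg_left hLM (by linarith)
      linarith
    have t6 : 12 * (M * Real.sqrt M) ≤ 12 * T := by
      have : M * Real.sqrt M ≤ T := by
        rw [hT, le_div_iff₀ (by positivity)]
        have h1 : Real.sqrt M * ℓ ^ (A + 1) ≤ L := by
          refine le_trans ?_ hLs
          apply mul_le_mul_of_nonneg_left _ (by positivity)
          rw [hP, hpA]
          nlinarith
        calc M * Real.sqrt M * ℓ ^ (A + 1) = M * (Real.sqrt M * ℓ ^ (A + 1)) := by ring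
          _ ≤ M * L := mul_le_mul_of_nonneg_left h1 hM0.le
          _ = L * M := by ring
      linarith
    have hsum : 32 * η * L * M * ℓ ^ 2 + 4 * M * ℓ ^ 2 + 96 * η * L * M * ℓ + 9 * L * ℓ + 6 * L * r₀ * ℓ +
        12 * (M * Real.sqrt M) ≤ 159 * T := by linarith
    have h1 : 12 * ℓ * ((C1 + C2) * (32 * η * L * M * ℓ ^ 2 + 4 * M * ℓ ^ 2 +
        96 * η * L * M * ℓ + 9 * L * ℓ + 6 * L * r₀ * ℓ + 12 * (M * Real.sqrt M))) ≤
        12 * ℓ * ((C1 + C2) * (159 * T)) := by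
      apply mul_le_mul_of_nonneg_left _ (by positivity)
      exact mul_le_mul_of_nonneg_left hsum (by positivity)
    refine h1.trans (le_of_eq ?_)
    rw [hT, pow_succ]
    field_simp
    ring
  have e3 : (1908 * (C1 + C2) + 64 * (C4 + 1) / ε ^ (D + 3 * A + 10) * C3) * (L * M / ℓ ^ A) =
      1908 * (C1 + C2) * (L * M / ℓ ^ A) + 64 * (C4 + 1) / ε ^ (D + 3 * A + 10) * C3 * (L * M / ℓ ^ A) := by ring
  rw [e3]
  linarith

theorem gii : S_GII := by
  intro ε A hε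
  obtain ⟨C1, hC1, hB⟩ := box Pool.Agent.N954.GN.div_rect
  obtain ⟨C2, hC2, hVX⟩ := vbox
  obtain ⟨C3, D, hC3, hAN⟩ := anorm
  obtain ⟨C4, hC4, hMB⟩ := c_mb1 (ε / 4) (2 * (D + 3 * A + 10)) 0 (by linarith)
  obtain ⟨M0, hM0, hbig⟩ := exists_big (by linarith : 0 < 3 * ε / 4) A
  set K := 1908 * (C1 + C2) + 64 * (C4 + 1) / ε ^ (D + 3 * A + 10) * C3 with hK
  have hlogM0 : 0 < Real.log M0 := Real.log_pos (by linarith)
  set K' := (9 * (2 * M0 ^ 2)) * ((9 * (2 * M0 ^ 2)) * (12 * Real.log M0)) * (Real.log M0) ^ A with hK'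
  have hKp : 0 < K := by positivity
  have hKp' : 0 < K' := by positivity
  refine ⟨K + K', by positivity, ?_⟩
  intro M L Y W hM hL1 hL2 hY hW
  have hMp : 0 < M := by linarith
  have hlog : 0 < Real.log M := Real.log_pos (by linarith)
  have hL0 : 1 ≤ L := by
    refine le_trans ?_ hL1
    exact Real.one_le_rpow (by linarith) (by linarith)
  have hlam : Lm L (l1 L) := by
    constructor
    · intro l
      unfold l1
      split_ifs <;> simp
    · intro l hl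
      unfold l1
      rw [if_neg]
      rintro ⟨g1, g2⟩
      rcases hl with h | h
      · omega
      · linarith
  have e3 : (K + K') * L * M / (Real.log M) ^ A = K * (L * M / (Real.log M) ^ A) +
      K' * (L * M / (Real.log M) ^ A) := by ring
  rw [e3]
  change |SI M Y W (l1 L)| ≤ _
  by_cases hc : M0 ≤ M
  · have key := gii_large hε hC1 hC2 hC3 hC4 hB hVX hAN hMB (hbig M hc) hL1 hL2 hY hW
    have : 0 ≤ K' * (L * M / (Real.log M) ^ A) := by positivity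
    linarith
  · have hc' := (not_le.1 hc).le
    have key := SI_trivial Pool.Agent.N157.GN.mub (Y := Y) (W := W) hM hlam
    have l1 : Real.log M ≤ Real.log M0 := Real.log_le_log hMp hc'
    have l2 : (9 * (2 * M ^ 2)) * ((9 * (2 * M ^ 2)) * (12 * Real.log M)) ≤
        (9 * (2 * M0 ^ 2)) * ((9 * (2 * M0 ^ 2)) * (12 * Real.log M0)) := by
      gcongr
    have l3 : (9 * (2 * M0 ^ 2)) * ((9 * (2 * M0 ^ 2)) * (12 * Real.log M0)) ≤
        K' * (L * M / (Real.log M) ^ A) := by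
      rw [hK', mul_assoc ((9 * (2 * M0 ^ 2)) * ((9 * (2 * M0 ^ 2)) * (12 * Real.log M0)))]
      apply le_mul_of_one_le_right (by positivity)
      rw [← mul_div_assoc, le_div_iff₀ (by positivity), one_mul]
      have l4 : (Real.log M) ^ A ≤ (Real.log M0) ^ A := pow_le_pow_left₀ hlog.le l1 A
      have l5 : 1 ≤ L * M := by nlinarith
      nlinarith [pow_pos hlogM0 A]
    have : 0 ≤ K * (L * M / (Real.log M) ^ A) := by positivity
    linarith

end Run7.h757.GP
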